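import Mathlib
import Pool.Agent.R465.FH.End

set_option autoImplicit false

/-!
# The gcd of the gaps is a local datum
-/

namespace Pool.Agent.P8H82.SH

open Finset Filter Topology Pool.Agent.TH498.AR Pool.Agent.H925R.Szpiro Pool.Agent.Y679.Par
  Pool.Agent.Y679.Cur Pool.Agent.Y679.Jl

/-- a periodic condition -/
theorem loc_inter {S : Set (ℕ × ℕ)} (hS : IsLoc S) {M : ℕ} (hM : 0 < M) {R : ℕ × ℕ → Prop}
    (hR : ∀ p p' : ℕ × ℕ, p.1 % M = p'.1 % M → p.2 % M = p'.2 % M → (R p ↔ R p')) :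
    IsLoc {p | p ∈ S ∧ R p} := by
  classical
  intro P1
  obtain ⟨P0, hP1, Q0, hQ0, T0, -, hT1, hT2⟩ := hS P1
  have hQ : 0 < Q0 * M := by positivity
  refine ⟨P0, hP1, Q0 * M, hQ, (range (Q0 * M) ×ˢ range (Q0 * M)).filter
    (fun t => (t.1 % Q0, t.2 % Q0) ∈ T0 ∧ R t), filter_subset _ _, ?_, ?_⟩
  · rintro p ⟨hp, hr⟩
    rw [mem_filter, mem_product, mem_range, mem_range]
    refine ⟨⟨Nat.mod_lt _ hQ, Nat.mod_lt _ hQ⟩, ?_, ?_⟩
    · have := hT1 p hp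
      simp only [Nat.mod_mul_right_mod]
      exact this
    · refine (hR _ _ ?_ ?_).1 hr
      · simp only [Nat.mod_mul_left_mod]
      · simp only [Nat.mod_mul_left_mod]
  · intro p h1 h2 ht hlarge
    rw [mem_filter] at ht
    obtain ⟨-, h3, h4⟩ := ht
    simp only [Nat.mod_mul_right_mod] at h3
    refine ⟨hT2 p h1 h2 h3 hlarge, (hR _ _ ?_ ?_).1 h4⟩
    · simp only [Nat.mod_mul_left_mod]
    · simp only [Nat.mod_mul_left_mod]

/-- the content of a model: the gcd of the gaps between the roots -/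
noncomputable def ct (q : ℤ × ℤ) : ℕ := by
  classical
  exact if h : ∃ p : ℕ × ℕ, Gd p ∧ mo p = q then Nat.gcd h.choose.1 h.choose.2 else 1

theorem ct_mo {p : ℕ × ℕ} (hp : Gd p) : ct (mo p) = Nat.gcd p.1 p.2 := by
  have h : ∃ p' : ℕ × ℕ, Gd p' ∧ mo p' = mo p := ⟨p, hp, rfl⟩
  have e : h.choose = p := mo_inj h.choose_spec.1 hp h.choose_spec.2
  have e2 : ct (mo p) = Nat.gcd h.choose.1 h.choose.2 := by
    unfold ct
    rw [dif_pos h]
  rw [e2, e]

theorem gcd_dvd {w : ℕ} (hw : 0 < w) {p : ℕ × ℕ} (hp : p ∈ Sw w) :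
    Nat.gcd p.1 p.2 ∣ 18 * w := by
  obtain ⟨⟨h1, h2, h3, h4, h5⟩, h6⟩ := hp
  have hg : Nat.gcd p.1 p.2 ≠ 0 := (Nat.gcd_pos_of_pos_left _ h1).ne'
  have hn : 0 < nn p := nn_pos h1 h2
  have hw18 : 18 * w ≠ 0 := by positivity
  rw [← Nat.factorization_prime_le_iff_dvd hg hw18]
  intro q hq
  by_contra hcon
  push Not at hcon
  obtain ⟨e, he⟩ : ∃ e, e = (18 * w).factorization q := ⟨_, rfl⟩
  rw [← he] at hcon
  have hd : q ^ (e + 1) ∣ Nat.gcd p.1 p.2 := (hq.pow_dvd_iff_le_factorization hg).2 hcon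
  have hd1 : q ^ (e + 1) ∣ p.1 := hd.trans (Nat.gcd_dvd_left _ _)
  have hd2 : q ^ (e + 1) ∣ p.2 := hd.trans (Nat.gcd_dvd_right _ _)
  rcases eq_or_ne q 3 with rfl | hq3
  · have h7 : 2 ≤ e := by
      rw [he, ← hq.pow_dvd_iff_le_factorization hw18]
      exact ⟨2 * w, by ring⟩
    have h8 : 3 ^ 3 ∣ p.1 := (pow_dvd_pow 3 (by omega)).trans hd1
    have h9 : 3 ^ 3 ∣ p.2 := (pow_dvd_pow 3 (by omega)).trans hd2
    norm_num at h8 h9
    refine h5 ⟨(by norm_num : 9 ∣ 27).trans h8, ?_⟩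
    have h10 : (27 : ℤ) ∣ (p.1 : ℤ) := by exact_mod_cast h8
    have h11 : (27 : ℤ) ∣ (p.2 : ℤ) := by exact_mod_cast h9
    exact dvd_sub h10 h11
  · have h7 : 1 ≤ e := by
      rw [he, ← hq.dvd_iff_one_le_factorization hw18]
      rcases eq_or_ne q 2 with rfl | hq2
      · exact ⟨9 * w, by ring⟩
      · have hqd1 : q ∣ p.1 := (dvd_pow_self q (by omega)).trans hd1
        have hqd2 : q ∣ p.2 := (dvd_pow_self q (by omega)).trans hd2
        have h8 := (hq.pow_dvd_iff_le_factorization hn.ne').1 (cube_dvd ⟨hqd1, hqd2⟩)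
        rw [h6, Nat.factorization_mul hw.ne' (g6_pos p).ne', Finsupp.add_apply,
          fact_g6 h1 h2 hq] at h8
        have h9 : kq p q ≤ 2 := by
          unfold kq
          split_ifs <;> omega
        have h10 : 1 ≤ w.factorization q := by omega
        exact ((hq.dvd_iff_one_le_factorization hw.ne').2 h10).mul_left 18
    exact h4 q hq hq3 ⟨(pow_dvd_pow q (by omega)).trans hd1, (pow_dvd_pow q (by omega)).trans hd2⟩

theorem gcd_mod (M : ℕ) {x y x' y' : ℕ} (hx : x % M = x' % M) (hy : y % M = y' % M) :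
    Nat.gcd (Nat.gcd x y) M = Nat.gcd (Nat.gcd x' y') M := by
  have key : ∀ x y x' y' : ℕ, x % M = x' % M → y % M = y' % M →
      Nat.gcd (Nat.gcd x y) M ∣ Nat.gcd (Nat.gcd x' y') M := by
    intro x y x' y' hx hy
    have hdM : Nat.gcd (Nat.gcd x y) M ∣ M := Nat.gcd_dvd_right _ _
    have hdx : Nat.gcd (Nat.gcd x y) M ∣ x := (Nat.gcd_dvd_left _ _).trans (Nat.gcd_dvd_left _ _)
    have hdy : Nat.gcd (Nat.gcd x y) M ∣ y := (Nat.gcd_dvd_left _ _).trans (Nat.gcd_dvd_right _ _)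
    refine Nat.dvd_gcd (Nat.dvd_gcd ?_ ?_) hdM
    · rw [← Nat.dvd_mod_iff hdM, ← hx, Nat.dvd_mod_iff hdM]
      exact hdx
    · rw [← Nat.dvd_mod_iff hdM, ← hy, Nat.dvd_mod_iff hdM]
      exact hdy
  exact Nat.dvd_antisymm (key _ _ _ _ hx hy) (key _ _ _ _ hx.symm hy.symm)

/-- the class: the content and the factor -/
noncomputable def cs (lam : ℤ × ℤ → ℕ) (q : ℤ × ℤ) : ℕ := Nat.pair (ct q) (lam q)

theorem Pg_loc {lam : ℤ × ℤ → ℕ} (hl : Fac lam) {w : ℕ} (hw : 0 < w) (l m : ℕ) :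
    IsLoc (Pc (fun q => Nat.pair (lam q) (cs lam q)) w (Nat.pair l m)) := by
  have hM : 0 < 18 * w := by positivity
  have h1 := loc_inter (Pw_loc hl hw l) hM
    (R := fun p => Nat.pair (Nat.gcd (Nat.gcd p.1 p.2) (18 * w)) l = m) (fun p p' a b => by
      beta_reduce
      rw [gcd_mod (18 * w) a b])
  have h2 : Pc (fun q => Nat.pair (lam q) (cs lam q)) w (Nat.pair l m) =
      {p | p ∈ Pw lam w l ∧ Nat.pair (Nat.gcd (Nat.gcd p.1 p.2) (18 * w)) l = m} := by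
    ext p
    constructor
    · rintro ⟨hp, he⟩
      simp only at he
      obtain ⟨e1, e2⟩ := Nat.pair_eq_pair.1 he
      refine ⟨⟨hp, e1⟩, ?_⟩
      unfold cs at e2
      rw [ct_mo hp.1, e1] at e2
      rw [Nat.gcd_eq_left (gcd_dvd hw hp), e2]
    · rintro ⟨⟨hp, e1⟩, e2⟩
      refine ⟨hp, ?_⟩
      simp only
      rw [Nat.gcd_eq_left (gcd_dvd hw hp)] at e2
      unfold cs
      rw [ct_mo hp.1, e1, e2]
  rw [h2]
  exact h1

end Pool.Agent.P8H82.SH
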