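import Mathlib
import Pool.Agent.P8H82.SH.Loc

set_option autoImplicit false

/-!
# The limits for a class function which is locally constant for every quotient
-/

namespace Pool.Agent.P8H82.SH

open Finset Filter Topology Pool.Agent.TH498.AR Pool.Agent.H925R.Szpiro Pool.Agent.Y679.Par
  Pool.Agent.Y679.Cur Pool.Agent.Y679.Jl

/-- for every quotient the class is given by congruences -/
def Lw (lam c : ℤ × ℤ → ℕ) : Prop := ∀ w : ℕ, 0 < w → ∀ l m : ℕ,
  IsLoc (Pc (fun q => Nat.pair (lam q) (c q)) w (Nat.pair l m))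

theorem Mr_limit {lam c : ℤ × ℤ → ℕ} (hl : Fac lam) (hc : Lw lam c) {w : ℕ} (hw : 0 < w) (m : ℕ) :
    ∃ δ : ℝ, 0 ≤ δ ∧ ∀ τ : ℝ, 0 ≤ τ → τ ≤ 1 →
    Tendsto (fun N : ℝ => ((Mr lam c w m τ N).ncard : ℝ) / N ^ ((2 : ℝ) / 3)) atTop
      (𝓝 (δ * Gi τ)) := by
  classical
  choose κ hκ0 hκ using fun l : ℕ => Ax_law (hc w hw l m)
  have hw0 : (0 : ℝ) < w := by exact_mod_cast hw
  refine ⟨∑ l ∈ Icc 1 62208, κ l * ((w : ℝ) / l) ^ ((2 : ℝ) / 3),
    sum_nonneg fun l _ => mul_nonneg (hκ0 l) (by positivity), fun τ hτ0 hτ1 => ?_⟩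
  obtain ⟨SS, hSS⟩ : ∃ SS : ℕ → Set (ℕ × ℕ), SS = fun l =>
    Rt (Pc (fun q => Nat.pair (lam q) (c q)) w (Nat.pair l m)) τ := ⟨_, rfl⟩
  have hlim : Tendsto (fun N : ℝ => ∑ l ∈ Icc 1 62208,
      ((Ax (SS l) (((w : ℝ) / l * N) ^ ((1 : ℝ) / 3))).ncard : ℝ) /
        (((w : ℝ) / l * N) ^ ((1 : ℝ) / 3)) ^ 2 * ((w : ℝ) / l) ^ ((2 : ℝ) / 3)) atTop
      (𝓝 ((∑ l ∈ Icc 1 62208, κ l * ((w : ℝ) / l) ^ ((2 : ℝ) / 3)) * Gi τ)) := by
    rw [sum_mul]
    refine tendsto_finsetSum _ fun l hl' => ?_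
    have hl0 : (0 : ℝ) < l := by exact_mod_cast (mem_Icc.1 hl').1
    have e : κ l * ((w : ℝ) / l) ^ ((2 : ℝ) / 3) * Gi τ = κ l * Gi τ * ((w : ℝ) / l) ^ ((2 : ℝ) / 3) := by
      ring
    rw [e, hSS]
    refine Tendsto.mul_const _ ((hκ l τ hτ0 hτ1).comp ?_)
    refine (tendsto_rpow_atTop (by norm_num)).comp ?_
    exact tendsto_id.const_mul_atTop (by positivity)
  refine hlim.congr' ?_
  filter_upwards [eventually_gt_atTop 0] with N hN
  obtain ⟨FA, hFA⟩ : ∃ FA : ℕ → Finset (ℕ × ℕ), FA = fun l =>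
    (Ax_fin (SS l) (((w : ℝ) / l * N) ^ ((1 : ℝ) / 3))).toFinset := ⟨_, rfl⟩
  have hmemSS : ∀ (l : ℕ) (p : ℕ × ℕ), p ∈ SS l ↔ (p ∈ Sw w ∧ lam (mo p) = l ∧ c (mo p) = m) ∧
      τ * (max p.1 p.2 : ℕ) ≤ (min p.1 p.2 : ℕ) := by
    intro l p
    rw [hSS]
    constructor
    · rintro ⟨⟨h1, h2⟩, h3⟩
      simp only at h2
      obtain ⟨h4, h5⟩ := Nat.pair_eq_pair.1 h2
      exact ⟨⟨h1, h4, h5⟩, h3⟩
    · rintro ⟨⟨h1, h4, h5⟩, h3⟩
      refine ⟨⟨h1, ?_⟩, h3⟩
      simp only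
      rw [h4, h5]
  have hmemFA : ∀ (l : ℕ) (p : ℕ × ℕ), 0 < l → (p ∈ FA l ↔
      (p ∈ SS l ∧ (l : ℝ) * g6 p ≤ N)) := by
    intro l p hl'
    have hl0 : (0 : ℝ) < l := by exact_mod_cast hl'
    rw [hFA]
    simp only [Set.Finite.mem_toFinset]
    have e : (((w : ℝ) / l * N) ^ ((1 : ℝ) / 3)) ^ 3 = (w : ℝ) / l * N := by
      rw [← Real.rpow_natCast, ← Real.rpow_mul (by positivity)]
      norm_num
    constructor
    · rintro ⟨hp, h1, h2, h3⟩
      refine ⟨hp, ?_⟩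
      rw [e] at h3
      have h4 : (p.1 : ℝ) * p.2 * (p.1 + p.2) = w * g6 p := by
        have := ((hmemSS l p).1 hp).1.1.2
        unfold nn at this
        exact_mod_cast this
      rw [h4] at h3
      have h5 : (w : ℝ) * (l * g6 p) ≤ w * N := by
        calc (w : ℝ) * (l * g6 p) = l * (w * g6 p) := by ring
          _ ≤ l * ((w : ℝ) / l * N) := mul_le_mul_of_nonneg_left h3 hl0.le
          _ = w * N := by field_simp
      exact le_of_mul_le_mul_left h5 hw0
    · rintro ⟨hp, h1⟩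
      have hp' := ((hmemSS l p).1 hp).1.1
      refine ⟨hp, hp'.1.1, hp'.1.2.1, ?_⟩
      rw [e]
      have h4 : (p.1 : ℝ) * p.2 * (p.1 + p.2) = w * g6 p := by
        have := hp'.2
        unfold nn at this
        exact_mod_cast this
      rw [h4]
      calc (w : ℝ) * g6 p = (w : ℝ) / l * (l * g6 p) := by field_simp
        _ ≤ (w : ℝ) / l * N := mul_le_mul_of_nonneg_left h1 (by positivity)
  have hset : Mr lam c w m τ N = (((Icc 1 62208).biUnion (fun l => (FA l).image mo) :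
      Finset (ℤ × ℤ)) : Set (ℤ × ℤ)) := by
    ext q
    rw [mem_coe, mem_biUnion]
    constructor
    · rintro ⟨⟨⟨h1, h2, h3⟩, h4⟩, h6, h7⟩
      obtain ⟨l1, l2⟩ := hl.1 q h1 h2
      obtain ⟨p, hp, he⟩ := mo_surj h1 h2
      have he' : mo p = q := he
      refine ⟨lam q, mem_Icc.2 ⟨l1, l2⟩, mem_image.2 ⟨p, ?_, he'⟩⟩
      have hcd : condS q.1 q.2 = g6 p := by rw [← he']; exact mo_cond hp
      have hD : D q.1 q.2 = (nn p : ℤ) ^ 2 := by rw [← he']; exact mo_D hp.2.2.1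
      rw [hmemFA _ _ l1]
      rw [hcd] at h3 h4
      rw [hD] at h4
      refine ⟨(hmemSS _ _).2 ⟨⟨⟨hp, ?_⟩, by rw [he'], by rw [he']; exact h6⟩, h7 p hp he'⟩, ?_⟩
      · have h5 : nn p ^ 2 = (w * g6 p) ^ 2 := by exact_mod_cast h4
        exact (Nat.pow_left_injective (by norm_num : 2 ≠ 0)) h5
      · push_cast at h3
        exact h3
    · rintro ⟨l, hl', hq⟩
      obtain ⟨p, hp, rfl⟩ := mem_image.1 hq
      rw [hmemFA _ _ (mem_Icc.1 hl').1, hmemSS] at hp
      obtain ⟨⟨⟨⟨hp1, hp2⟩, hp3, hp5⟩, hp6⟩, hp4⟩ := hp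
      refine ⟨⟨⟨mo_min hp1, mo_full hp1.2.2.1, ?_⟩, ?_⟩, hp5, ?_⟩
      · rw [mo_cond hp1, hp3]
        push_cast
        exact hp4
      · rw [mo_D hp1.2.2.1, mo_cond hp1, ← hp2]
      · intro p' hp' he
        rw [mo_inj hp' hp1 he]
        exact hp6
  have hcard : ((Mr lam c w m τ N).ncard : ℝ) = ∑ l ∈ Icc 1 62208,
      ((Ax (SS l) (((w : ℝ) / l * N) ^ ((1 : ℝ) / 3))).ncard : ℝ) := by
    rw [hset, Set.ncard_coe_finset, card_biUnion]
    · push_cast
      refine sum_congr rfl fun l hl' => ?_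
      rw [Set.ncard_eq_toFinset_card _ (Ax_fin _ _), card_image_of_injOn, hFA]
      intro p hp p' hp' heq
      rw [mem_coe, hmemFA _ _ (mem_Icc.1 hl').1, hmemSS] at hp hp'
      exact mo_inj hp.1.1.1.1 hp'.1.1.1.1 heq
    · intro l hl1 l' hl2 hne
      rw [Function.onFun, disjoint_left]
      intro q hq hq'
      obtain ⟨p, hp, rfl⟩ := mem_image.1 hq
      obtain ⟨p', hp', he⟩ := mem_image.1 hq'
      rw [hmemFA _ _ (mem_Icc.1 hl1).1, hmemSS] at hp
      rw [hmemFA _ _ (mem_Icc.1 hl2).1, hmemSS] at hp'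
      apply hne
      rw [← hp.1.1.2.1, ← hp'.1.1.2.1, he]
  rw [hcard, sum_div]
  refine sum_congr rfl fun l hl' => ?_
  have hl0 : (0 : ℝ) < l := by exact_mod_cast (mem_Icc.1 hl').1
  have e : (((w : ℝ) / l * N) ^ ((1 : ℝ) / 3)) ^ 2 =
      ((w : ℝ) / l) ^ ((2 : ℝ) / 3) * N ^ ((2 : ℝ) / 3) := by
    rw [← Real.rpow_natCast, ← Real.rpow_mul (by positivity), Real.mul_rpow (by positivity) hN.le]
    norm_num
  rw [e]
  have h1 : ((w : ℝ) / l) ^ ((2 : ℝ) / 3) ≠ 0 := by positivity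
  have h2 : N ^ ((2 : ℝ) / 3) ≠ 0 := by positivity
  field_simp

theorem Mt_limit {lam c : ℤ × ℤ → ℕ} (hl : Fac lam) (hc : Lw lam c) (w m : ℕ) :
    ∃ α : ℝ, 0 ≤ α ∧ (w = 0 → α = 0) ∧
    Tendsto (fun N : ℝ => ((Mm lam c w m N).ncard : ℝ) / N ^ ((2 : ℝ) / 3)) atTop (𝓝 α) ∧
    ∀ t : ℝ, Tendsto (fun N : ℝ => ((Mt lam c w m t N).ncard : ℝ) / N ^ ((2 : ℝ) / 3)) atTop
      (𝓝 (α * Fl t)) := by
  rcases Nat.eq_zero_or_pos w with rfl | hw
  · have h0 : ∀ N : ℝ, Mw lam 0 N = ∅ := by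
      intro N
      rw [Set.eq_empty_iff_forall_notMem]
      rintro q ⟨⟨h1, -⟩, h2⟩
      apply h1.1
      rw [h2]
      simp
    have h1 : ∀ N : ℝ, Mm lam c 0 m N = ∅ := by
      intro N
      rw [Set.eq_empty_iff_forall_notMem]
      rintro q ⟨hq, -⟩
      rw [h0] at hq
      exact hq
    have h2 : ∀ t N : ℝ, Mt lam c 0 m t N = ∅ := by
      intro t N
      rw [Set.eq_empty_iff_forall_notMem]
      rintro q ⟨hq, -⟩
      rw [h0] at hq
      exact hq
    refine ⟨0, le_rfl, fun _ => rfl, ?_, fun t => ?_⟩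
    · simp only [h1, Set.ncard_empty, Nat.cast_zero, zero_div]
      exact tendsto_const_nhds
    · simp only [h2, Set.ncard_empty, Nat.cast_zero, zero_div, zero_mul]
      exact tendsto_const_nhds
  · obtain ⟨δ, hδ, h⟩ := Mr_limit hl hc hw m
    have hG := Gi_zero_pos
    refine ⟨δ * Gi 0, by positivity, fun h0 => by omega, ?_, fun t => ?_⟩
    · have e : ∀ N : ℝ, Mm lam c w m N = Mr lam c w m 0 N := by
        intro N
        ext q
        constructor
        · rintro ⟨h1, h2⟩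
          refine ⟨h1, h2, fun p _ _ => ?_⟩
          rw [zero_mul]
          exact Nat.cast_nonneg _
        · rintro ⟨h1, h2, -⟩
          exact ⟨h1, h2⟩
      simp only [e]
      exact h 0 le_rfl zero_le_one
    · rcases lt_or_ge t 1 with ht | ht
      · simp only [Mt_small ht, Set.ncard_empty, Nat.cast_zero, zero_div, Fl_small ht, mul_zero]
        exact tendsto_const_nhds
      · obtain ⟨τ, t0, t1, -, t2⟩ := thr ht
        simp only [Mt_big t2]
        have e : δ * Gi 0 * Fl t = δ * Gi τ := by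
          rw [Fl_big t0 t1 t2]
          field_simp
        rw [e]
        exact h τ t0.le t1


theorem sand {f : ℝ → ℝ} {s t : ℕ → ℝ → ℝ} {S T : ℕ → ℝ} {L : ℝ}
    (hs : ∀ W, Tendsto (s W) atTop (𝓝 (S W))) (ht : ∀ W, Tendsto (t W) atTop (𝓝 (T W)))
    (hS : Tendsto S atTop (𝓝 L)) (hT : Tendsto T atTop (𝓝 0))
    (h : ∀ W, ∀ᶠ N in atTop, s W N ≤ f N ∧ f N ≤ s W N + t W N) : Tendsto f atTop (𝓝 L) := by
  rw [Metric.tendsto_nhds]
  intro ε hε
  obtain ⟨W, h1, h2⟩ := ((Metric.tendsto_nhds.1 hS (ε / 4) (by positivity)).and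
    (Metric.tendsto_nhds.1 hT (ε / 4) (by positivity))).exists
  filter_upwards [Metric.tendsto_nhds.1 (hs W) (ε / 4) (by positivity),
    Metric.tendsto_nhds.1 (ht W) (ε / 4) (by positivity), h W] with N h3 h4 h5
  rw [Real.dist_eq, abs_lt] at h1 h2 h3 h4 ⊢
  obtain ⟨h6, h7⟩ := h5
  constructor <;> linarith

theorem quot_unique {q : ℤ × ℤ} {w w' : ℕ} (h : D q.1 q.2 = ((w * condS q.1 q.2 : ℕ) : ℤ) ^ 2)
    (h' : D q.1 q.2 = ((w' * condS q.1 q.2 : ℕ) : ℤ) ^ 2) : w = w' := by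
  have h3 := h.symm.trans h'
  have hc := condS_pos q.1 q.2
  have h4 : (w * condS q.1 q.2) ^ 2 = (w' * condS q.1 q.2) ^ 2 := by exact_mod_cast h3
  have h5 := Nat.pow_left_injective (by norm_num : 2 ≠ 0) h4
  exact Nat.eq_of_mul_eq_mul_right hc h5

/-- bound for the classes -/
def Bw (c : ℤ × ℤ → ℕ) (Bd : ℕ → ℕ) : Prop := ∀ (q : ℤ × ℤ) (w : ℕ), IsMin q.1 q.2 →
  FullS q.1 q.2 → D q.1 q.2 = ((w * condS q.1 q.2 : ℕ) : ℤ) ^ 2 → c q ≤ Bd w

/-- **The joint law, general thresholds.** -/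
theorem joint {lam c : ℤ × ℤ → ℕ} (hl : Fac lam) (hc : Lw lam c) {Bd : ℕ → ℕ} (hB : Bw c Bd) :
    ∃ (A : ℝ) (α : ℕ → ℕ → ℝ), 0 < A ∧ (∀ w m, 0 ≤ α w m) ∧ (∀ m, α 0 m = 0) ∧
      HasSum (fun w => ∑ m ∈ range (Bd w + 1), α w m) A ∧
      Tendsto (fun N : ℝ => ((Md lam N).ncard : ℝ) / N ^ ((2 : ℝ) / 3)) atTop (𝓝 A) ∧
      ∀ T : ℕ → ℕ → ℝ, Tendsto (fun N : ℝ => ((Pool.Agent.R465.FH.Mg lam c T N).ncard : ℝ) /
        N ^ ((2 : ℝ) / 3)) atTop
          (𝓝 (∑' w : ℕ, ∑ m ∈ range (Bd w + 1), α w m * Fl (T w m))) := by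
  classical
  obtain ⟨A, κ, hA, -, hsum, hMd, hMw⟩ := dist hl
  choose α hα hα0 hαm hαt using fun w m => Mt_limit hl hc w m
  have hfin : ∀ N : ℝ, 1 ≤ N → (Md lam N).Finite := fun N hN =>
    Md_fin (fun q a b => (hl.1 q a b).1) hN
  have hκ : ∀ w, κ w = ∑ m ∈ range (Bd w + 1), α w m := by
    intro w
    refine tendsto_nhds_unique (hMw w) ?_
    have h1 : Tendsto (fun N : ℝ => ∑ m ∈ range (Bd w + 1), ((Mm lam c w m N).ncard : ℝ) /
        N ^ ((2 : ℝ) / 3)) atTop (𝓝 (∑ m ∈ range (Bd w + 1), α w m)) :=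
      tendsto_finsetSum _ fun m _ => hαm w m
    refine h1.congr' ?_
    filter_upwards [eventually_ge_atTop 1] with N hN
    have hfin' : ∀ m, (Mm lam c w m N).Finite := fun m => (hfin N hN).subset fun q hq => hq.1.1
    rw [← sum_div]
    congr 1
    have hset : Mw lam w N = (((range (Bd w + 1)).biUnion (fun m => (hfin' m).toFinset) :
        Finset (ℤ × ℤ)) : Set (ℤ × ℤ)) := by
      ext q
      rw [mem_coe, mem_biUnion]
      constructor
      · intro h1
        have m2 := hB q w h1.1.1 h1.1.2.1 h1.2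
        refine ⟨c q, mem_range.2 (by omega), ?_⟩
        rw [Set.Finite.mem_toFinset]
        exact ⟨h1, rfl⟩
      · rintro ⟨m, -, hq⟩
        rw [Set.Finite.mem_toFinset] at hq
        exact hq.1
    rw [hset, Set.ncard_coe_finset, card_biUnion]
    · push_cast
      refine sum_congr rfl fun m _ => ?_
      rw [Set.ncard_eq_toFinset_card _ (hfin' m)]
    · intro x _ y _ hxy
      rw [Function.onFun, disjoint_left]
      intro q hq hq'
      rw [Set.Finite.mem_toFinset] at hq hq'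
      exact hxy (hq.2.symm.trans hq'.2)
  have hκ' : κ = fun w => ∑ m ∈ range (Bd w + 1), α w m := funext hκ
  have hsum' := hsum
  rw [hκ'] at hsum'
  refine ⟨A, α, hA, hα, fun m => hα0 0 m rfl, hsum', hMd, fun T => ?_⟩
  have hsF : Summable fun w => ∑ m ∈ range (Bd w + 1), α w m * Fl (T w m) := by
    refine Summable.of_nonneg_of_le (fun w => sum_nonneg fun m _ => mul_nonneg (hα w m)
      (Fl_nonneg _)) (fun w => sum_le_sum fun m _ => ?_) hsum'.summable
    have := mul_le_mul_of_nonneg_left (Fl_le_one (T w m)) (hα w m)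
    rwa [mul_one] at this
  refine sand (s := fun W N => (∑ w ∈ range (W + 1), ∑ m ∈ range (Bd w + 1),
      ((Mt lam c w m (T w m) N).ncard : ℝ)) / N ^ ((2 : ℝ) / 3))
    (t := fun W N => ((Md lam N).ncard : ℝ) / N ^ ((2 : ℝ) / 3) -
      ∑ w ∈ range (W + 1), ((Mw lam w N).ncard : ℝ) / N ^ ((2 : ℝ) / 3))
    (S := fun W => ∑ w ∈ range (W + 1), ∑ m ∈ range (Bd w + 1), α w m * Fl (T w m))
    (T := fun W => A - ∑ w ∈ range (W + 1), κ w) (fun W => ?_) (fun W => ?_) ?_ ?_ (fun W => ?_)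
  · simp only [sum_div]
    exact tendsto_finsetSum _ fun w _ => tendsto_finsetSum _ fun m _ => hαt w m _
  · exact hMd.sub (tendsto_finsetSum _ fun w _ => hMw w)
  · exact hsF.hasSum.tendsto_sum_nat.comp (tendsto_add_atTop_nat 1)
  · have h1 := (hsum.tendsto_sum_nat.comp (tendsto_add_atTop_nat 1)).const_sub A
    rw [sub_self] at h1
    exact h1
  · filter_upwards [eventually_ge_atTop 1] with N hN
    have hN0 : (0 : ℝ) < N ^ ((2 : ℝ) / 3) := by positivity
    have hfT : ∀ x : ℕ × ℕ, (Mt lam c x.1 x.2 (T x.1 x.2) N).Finite :=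
      fun x => (hfin N hN).subset fun q hq => hq.1.1
    have hfW : ∀ w : ℕ, (Mw lam w N).Finite := fun w => (hfin N hN).subset fun q hq => hq.1
    have hfG : (Pool.Agent.R465.FH.Mg lam c T N).Finite := (hfin N hN).subset fun q hq => hq.1
    obtain ⟨U, hU⟩ : ∃ U : Finset (ℤ × ℤ), U = (range (W + 1)).biUnion (fun w =>
      (range (Bd w + 1)).biUnion (fun m => (hfT (w, m)).toFinset)) := ⟨_, rfl⟩
    obtain ⟨V, hV⟩ : ∃ V : Finset (ℤ × ℤ), V = (range (W + 1)).biUnion (fun w =>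
      (hfW w).toFinset) := ⟨_, rfl⟩
    have memU : ∀ q, q ∈ U ↔ ∃ w m, w ≤ W ∧ m ≤ Bd w ∧ q ∈ Mt lam c w m (T w m) N := by
      intro q
      rw [hU, mem_biUnion]
      constructor
      · rintro ⟨w, hw, hq⟩
        obtain ⟨m, hm, hq⟩ := mem_biUnion.1 hq
        rw [Set.Finite.mem_toFinset] at hq
        exact ⟨w, m, by rw [mem_range] at hw; omega, by rw [mem_range] at hm; omega, hq⟩
      · rintro ⟨w, m, hw, hm, hq⟩
        refine ⟨w, mem_range.2 (by omega), mem_biUnion.2 ⟨m, mem_range.2 (by omega), ?_⟩⟩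
        rw [Set.Finite.mem_toFinset]
        exact hq
    have memV : ∀ q, q ∈ V ↔ ∃ w, w ≤ W ∧ q ∈ Mw lam w N := by
      intro q
      rw [hV, mem_biUnion]
      constructor
      · rintro ⟨w, hw, hq⟩
        rw [Set.Finite.mem_toFinset] at hq
        exact ⟨w, by rw [mem_range] at hw; omega, hq⟩
      · rintro ⟨w, hw, hq⟩
        refine ⟨w, mem_range.2 (by omega), ?_⟩
        rw [Set.Finite.mem_toFinset]
        exact hq
    have cU : (U.card : ℝ) = ∑ w ∈ range (W + 1), ∑ m ∈ range (Bd w + 1),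
        ((Mt lam c w m (T w m) N).ncard : ℝ) := by
      rw [hU, card_biUnion]
      · push_cast
        refine sum_congr rfl fun w _ => ?_
        rw [card_biUnion]
        · push_cast
          refine sum_congr rfl fun m _ => ?_
          rw [Set.ncard_eq_toFinset_card _ (hfT (w, m))]
        · intro x _ y _ hxy
          rw [Function.onFun, disjoint_left]
          intro q hq hq'
          rw [Set.Finite.mem_toFinset] at hq hq'
          exact hxy (hq.2.1.symm.trans hq'.2.1)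
      · intro x _ y _ hxy
        rw [Function.onFun, disjoint_left]
        intro q hq hq'
        obtain ⟨m, -, hq⟩ := mem_biUnion.1 hq
        obtain ⟨m', -, hq'⟩ := mem_biUnion.1 hq'
        rw [Set.Finite.mem_toFinset] at hq hq'
        exact hxy (quot_unique hq.1.2 hq'.1.2)
    have cV : (V.card : ℝ) = ∑ w ∈ range (W + 1), ((Mw lam w N).ncard : ℝ) := by
      rw [hV, card_biUnion]
      · push_cast
        refine sum_congr rfl fun w _ => ?_
        rw [Set.ncard_eq_toFinset_card _ (hfW w)]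
      · intro x _ y _ hxy
        rw [Function.onFun, disjoint_left]
        intro q hq hq'
        rw [Set.Finite.mem_toFinset] at hq hq'
        exact hxy (quot_unique hq.2 hq'.2)
    have h1 : U ⊆ hfG.toFinset := by
      intro q hq
      obtain ⟨w, m, hw, hm, hq⟩ := (memU q).1 hq
      rw [Set.Finite.mem_toFinset]
      exact ⟨hq.1.1, w, hq.1.2, by rw [hq.2.1]; exact hq.2.2⟩
    have h2 : V ⊆ (hfin N hN).toFinset := by
      intro q hq
      obtain ⟨w, hw, hq⟩ := (memV q).1 hq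
      rw [Set.Finite.mem_toFinset]
      exact hq.1
    have h3 : hfG.toFinset ⊆ U ∪ ((hfin N hN).toFinset \ V) := by
      intro q hq
      rw [Set.Finite.mem_toFinset] at hq
      obtain ⟨h4, w, h5, h6⟩ := hq
      rw [mem_union, Finset.mem_sdiff]
      by_cases hw : w ≤ W
      · left
        rw [memU]
        exact ⟨w, c q, hw, hB q w h4.1 h4.2.1 h5, ⟨h4, h5⟩, rfl, h6⟩
      · right
        refine ⟨by rw [Set.Finite.mem_toFinset]; exact h4, fun hqV => hw ?_⟩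
        obtain ⟨w', hw', hq'⟩ := (memV q).1 hqV
        rw [quot_unique h5 hq'.2]
        exact hw'
    have c1 := card_le_card h1
    have c2 := (card_le_card h3).trans (card_union_le _ _)
    rw [card_sdiff_of_subset h2] at c2
    have c3 := card_le_card h2
    rw [← Set.ncard_eq_toFinset_card _ hfG] at c1 c2
    rw [← Set.ncard_eq_toFinset_card _ (hfin N hN)] at c2 c3
    have c1' : (U.card : ℝ) ≤ ((Pool.Agent.R465.FH.Mg lam c T N).ncard : ℝ) := by exact_mod_cast c1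
    have c2' : ((Pool.Agent.R465.FH.Mg lam c T N).ncard : ℝ) ≤
        (U.card : ℝ) + (((Md lam N).ncard : ℝ) - (V.card : ℝ)) := by
      have c4 : (Pool.Agent.R465.FH.Mg lam c T N).ncard + V.card ≤ U.card + (Md lam N).ncard := by
        omega
      have c5 : ((Pool.Agent.R465.FH.Mg lam c T N).ncard : ℝ) + V.card ≤
          U.card + (Md lam N).ncard := by exact_mod_cast c4
      linarith
    rw [cU] at c1'
    rw [cU, cV] at c2'
    constructor
    · exact div_le_div_of_nonneg_right c1' hN0.le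
    · rw [← sum_div, ← sub_div, ← add_div]
      exact div_le_div_of_nonneg_right c2' hN0.le

end Pool.Agent.P8H82.SH
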