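import Mathlib
import Pool.Agent.P8H82.SH.Lim

set_option autoImplicit false

/-!
# The denominator of the modular invariant
-/

namespace Pool.Agent.P8H82.SH

open Pool.Agent.TH498.AR Pool.Agent.H925R.Szpiro Pool.Agent.Y679.Par
  Pool.Agent.Y679.Cur Pool.Agent.Y679.Jl
open Pool.Agent.R465.FH (EE)
open Pool.Agent.Y679.Fh (disc_Eq c4_Eq)

/-- the modular invariant -/
noncomputable def jq (q : ℤ × ℤ) : ℚ := (EE q).c₄ ^ 3 / (EE q).Δ

/-- the denominator of a quotient of natural numbers -/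
theorem den_div (a b : ℕ) (hb : 0 < b) : ((a : ℚ) / b).den * Nat.gcd a b = b := by
  obtain ⟨a', b', hcop, ha, hb'⟩ := Nat.exists_coprime a b
  have hg0 : 0 < Nat.gcd a b := Nat.gcd_pos_of_pos_right _ hb
  obtain ⟨g, hg⟩ : ∃ g, g = Nat.gcd a b := ⟨_, rfl⟩
  rw [← hg] at ha hb' hg0 ⊢
  have hb0 : 0 < b' := by
    rcases Nat.eq_zero_or_pos b' with h | h
    · rw [h, zero_mul] at hb'
      omega
    · exact h
  have h1 : ((a : ℚ) / b) = ((a' : ℤ) : ℚ) / ((b' : ℤ) : ℚ) := by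
    have e1 : (a : ℚ) = a' * g := by exact_mod_cast ha
    have e2 : (b : ℚ) = b' * g := by exact_mod_cast hb'
    have hg' : (g : ℚ) ≠ 0 := by exact_mod_cast hg0.ne'
    rw [e1, e2, mul_div_mul_right _ _ hg']
    push_cast
    rfl
  have h2 := Rat.den_div_eq_of_coprime (a := (a' : ℤ)) (b := (b' : ℤ)) (by exact_mod_cast hb0)
    (by simpa using hcop)
  rw [← h1] at h2
  have h3 : ((a : ℚ) / b).den = b' := by exact_mod_cast h2
  rw [h3, ← hb']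

theorem cop_S {A B : ℕ} (h : Nat.Coprime A B) :
    Nat.Coprime (A ^ 2 + A * B + B ^ 2) (A * B * (A + B)) := by
  refine Nat.coprime_of_dvd fun q hq h1 h2 => ?_
  have hA : q ∣ A → q ∣ B → False := fun ha hb => by
    have := Nat.dvd_gcd ha hb
    rw [Nat.Coprime] at h
    rw [h] at this
    exact hq.one_lt.ne' (Nat.dvd_one.1 this)
  have hAB : q ∣ A → False := fun ha => by
    refine hA ha ?_
    have h3 : q ∣ A ^ 2 + A * B := dvd_add (ha.trans (dvd_pow_self A two_ne_zero)) (ha.mul_right B)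
    exact hq.dvd_of_dvd_pow ((Nat.dvd_add_right h3).1 h1)
  have hBA : q ∣ B → False := fun hb => by
    refine hA ?_ hb
    have h3 : q ∣ A * B + B ^ 2 := dvd_add (hb.mul_left A) (hb.trans (dvd_pow_self B two_ne_zero))
    rw [add_assoc] at h1
    exact hq.dvd_of_dvd_pow ((Nat.dvd_add_left h3).1 h1)
  rcases (hq.dvd_mul).1 h2 with h3 | h3
  · rcases (hq.dvd_mul).1 h3 with h4 | h4
    · exact hAB h4
    · exact hBA h4
  · have h4 : q ∣ A * B := by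
      have h5 : q ∣ (A ^ 2 + A * B + B ^ 2) + A * B := by
        have e : (A ^ 2 + A * B + B ^ 2) + A * B = (A + B) * (A + B) := by ring
        rw [e]
        exact h3.mul_right _
      exact (Nat.dvd_add_right h1).1 h5
    rcases (hq.dvd_mul).1 h4 with h5 | h5
    · exact hAB h5
    · exact hBA h5

theorem g6_odd {p : ℕ × ℕ} (h1 : 0 < p.1) (h2 : 0 < p.2) : Nat.Coprime 2 (g6 p) := by
  rw [Nat.Prime.coprime_iff_not_dvd Nat.prime_two]
  intro h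
  have h3 := (Nat.prime_two.dvd_iff_one_le_factorization (g6_pos p).ne').1 h
  rw [fact_g6 h1 h2 Nat.prime_two] at h3
  unfold kq at h3
  rw [if_neg (by omega)] at h3
  omega

theorem jq_mo {p : ℕ × ℕ} (hp : Gd p) :
    jq (mo p) = 256 * ((p.1 : ℚ) ^ 2 + p.1 * p.2 + (p.2 : ℚ) ^ 2) ^ 3 / (nn p : ℚ) ^ 2 := by
  have ha : (3 : ℚ) * ((mo p).1 : ℚ) = (p.1 : ℚ) ^ 2 + p.1 * p.2 + (p.2 : ℚ) ^ 2 := by
    exact_mod_cast mo_a hp.2.2.1
  have hn : (nn p : ℚ) ≠ 0 := by exact_mod_cast (nn_pos' hp).ne'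
  unfold jq
  rw [c4_Eq, disc_Eq, mo_D hp.2.2.1, ← ha]
  push_cast
  field_simp
  ring

theorem j_den {p : ℕ × ℕ} {w : ℕ} (hp : p ∈ Sw w) :
    (jq (mo p)).den * (Nat.gcd p.1 p.2 ^ 6 *
      Nat.gcd (256 * Nat.gcd (Nat.gcd p.1 p.2) 2 ^ 6) (w ^ 2)) =
      w ^ 2 * g6 p ^ 2 * Nat.gcd (Nat.gcd p.1 p.2) 2 ^ 6 := by
  obtain ⟨hG, hnn⟩ := hp
  have hG' := hG
  obtain ⟨h1, h2, h3, h4, h5⟩ := hG
  obtain ⟨A, B, hcop, hA, hB⟩ := Nat.exists_coprime p.1 p.2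
  have hg0 : 0 < Nat.gcd p.1 p.2 := Nat.gcd_pos_of_pos_left _ h1
  have hodd : ¬ 4 ∣ Nat.gcd p.1 p.2 := fun h =>
    h4 2 Nat.prime_two (by norm_num) ⟨by norm_num; exact h.trans (Nat.gcd_dvd_left _ _),
      by norm_num; exact h.trans (Nat.gcd_dvd_right _ _)⟩
  obtain ⟨g, hg⟩ : ∃ g, g = Nat.gcd p.1 p.2 := ⟨_, rfl⟩
  rw [← hg] at hA hB hg0 hodd ⊢
  obtain ⟨n, hn⟩ : ∃ n, n = A * B * (A + B) := ⟨_, rfl⟩
  obtain ⟨S, hS⟩ : ∃ S, S = A ^ 2 + A * B + B ^ 2 := ⟨_, rfl⟩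
  have e1 : nn p = g ^ 3 * n := by
    unfold nn
    rw [hA, hB, hn]
    ring
  have hn0 : 0 < n := by
    have := nn_pos' hG'
    rw [e1] at this
    exact Nat.pos_of_mul_pos_left this |>.trans_le le_rfl
  have hgq : (g : ℚ) ≠ 0 := by exact_mod_cast hg0.ne'
  have hnq : (n : ℚ) ≠ 0 := by exact_mod_cast hn0.ne'
  have e2 : jq (mo p) = ((256 * S ^ 3 : ℕ) : ℚ) / ((n ^ 2 : ℕ) : ℚ) := by
    rw [jq_mo hG', e1, hS]
    have a1 : (p.1 : ℚ) = A * g := by exact_mod_cast hA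
    have a2 : (p.2 : ℚ) = B * g := by exact_mod_cast hB
    rw [a1, a2]
    push_cast
    field_simp
  have e3 := den_div (256 * S ^ 3) (n ^ 2) (by positivity)
  rw [← e2] at e3
  have hcS : Nat.Coprime (S ^ 3) (n ^ 2) := by
    rw [hS, hn]
    exact (cop_S hcop).pow 3 2
  rw [Nat.Coprime.gcd_mul_right_cancel _ hcS] at e3
  -- the part at two
  obtain ⟨G, hGG⟩ : ∃ G, G = Nat.gcd g 2 := ⟨_, rfl⟩
  rw [← hGG]
  have hG2 : G ∣ 2 := by rw [hGG]; exact Nat.gcd_dvd_right _ _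
  have hGg : G ∣ g := by rw [hGG]; exact Nat.gcd_dvd_left _ _
  obtain ⟨g', hg'⟩ := hGg
  have hG0 : 0 < G := Nat.pos_of_dvd_of_pos hG2 (by norm_num)
  have hg'odd : Nat.Coprime 2 g' := by
    rw [Nat.Prime.coprime_iff_not_dvd Nat.prime_two]
    intro h
    have h6 : 2 ∣ g := by rw [hg']; exact h.mul_left G
    have h7 : G = 2 := by
      rw [hGG]
      exact Nat.gcd_eq_right h6
    apply hodd
    rw [hg', h7]
    exact mul_dvd_mul_left 2 h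
  have hpow : 256 * G ^ 6 ∣ 2 ^ 14 := by
    have : G ^ 6 ∣ 2 ^ 6 := pow_dvd_pow_of_dvd hG2 6
    have h8 := mul_dvd_mul_left 256 this
    norm_num at h8 ⊢
    exact h8
  have c1 : Nat.Coprime (256 * G ^ 6) (g' ^ 6) :=
    Nat.Coprime.coprime_dvd_left hpow (hg'odd.pow 14 6)
  have c2 : Nat.Coprime (256 * G ^ 6) (g6 p ^ 2) :=
    Nat.Coprime.coprime_dvd_left hpow ((g6_odd h1 h2).pow 14 2)
  have e4 : G ^ 6 * n ^ 2 * g' ^ 6 = w ^ 2 * g6 p ^ 2 := by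
    have h9 : nn p ^ 2 = (w * g6 p) ^ 2 := by rw [hnn]
    rw [e1, hg'] at h9
    have : G ^ 6 * n ^ 2 * g' ^ 6 = ((G * g') ^ 3 * n) ^ 2 := by ring
    rw [this, h9]
    ring
  have e5 : G ^ 6 * Nat.gcd 256 (n ^ 2) = Nat.gcd (256 * G ^ 6) (w ^ 2) := by
    rw [← Nat.gcd_mul_left, mul_comm (G ^ 6) 256,
      ← Nat.Coprime.gcd_mul_right_cancel_right (G ^ 6 * n ^ 2) c1.symm, e4,
      Nat.Coprime.gcd_mul_right_cancel_right _ c2.symm]
  rw [← e5]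
  calc (jq (mo p)).den * (g ^ 6 * (G ^ 6 * Nat.gcd 256 (n ^ 2)))
      = ((jq (mo p)).den * Nat.gcd 256 (n ^ 2)) * (g ^ 6 * G ^ 6) := by ring
    _ = n ^ 2 * (g ^ 6 * G ^ 6) := by rw [e3]
    _ = (nn p) ^ 2 * G ^ 6 := by rw [e1]; ring
    _ = w ^ 2 * g6 p ^ 2 * G ^ 6 := by rw [hnn]; ring

end Pool.Agent.P8H82.SH
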