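import Mathlib
import Pool.Agent.P8H82.SH.Den

set_option autoImplicit false

/-!
# The sum over the quotients and the classes, stable case
-/

namespace Pool.Agent.P8H82.SH

open Finset Filter Topology Pool.Agent.TH498.AR Pool.Agent.H925R.Szpiro Pool.Agent.Y679.Par
  Pool.Agent.Y679.Cur Pool.Agent.Y679.Jl
open Pool.Agent.R465.FH (EE mOf fOf Mg)

/-- the value of the arithmetic part -/
def val (w k : ℕ) : ℚ :=
  (w : ℚ) ^ 2 * (Nat.gcd (mOf k) 2 : ℚ) ^ 6 / ((mOf k : ℚ) ^ 6 *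
    (Nat.gcd (256 * Nat.gcd (mOf k) 2 ^ 6) (w ^ 2) : ℚ) * (fOf k : ℚ) ^ 2)

lemma mOf_pos (k : ℕ) : 0 < mOf k := by
  unfold mOf
  exact lt_of_lt_of_le one_pos (le_max_right _ _)

lemma fOf_pos (k : ℕ) : 0 < fOf k := by
  have : 1 ≤ fOf k := by
    unfold fOf
    exact le_min (le_max_right _ _) (by norm_num)
  omega

lemma val_pos {w k : ℕ} (hw : 1 ≤ w) : 0 < val w k := by
  have h1 := mOf_pos k
  have h2 := fOf_pos k
  have h3 : 0 < Nat.gcd (mOf k) 2 := Nat.gcd_pos_of_pos_left _ h1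
  have h4 : 0 < Nat.gcd (256 * Nat.gcd (mOf k) 2 ^ 6) (w ^ 2) :=
    Nat.gcd_pos_of_pos_right _ (by positivity)
  have h1' : (0 : ℚ) < mOf k := by exact_mod_cast h1
  have h2' : (0 : ℚ) < fOf k := by exact_mod_cast h2
  have h3' : (0 : ℚ) < (Nat.gcd (mOf k) 2 : ℚ) := by exact_mod_cast h3
  have h4' : (0 : ℚ) < (Nat.gcd (256 * Nat.gcd (mOf k) 2 ^ 6) (w ^ 2) : ℚ) := by exact_mod_cast h4
  have h5' : (0 : ℚ) < w := by exact_mod_cast hw
  unfold val
  exact div_pos (mul_pos (pow_pos h5' 2) (pow_pos h3' 6))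
    (mul_pos (mul_pos (pow_pos h1' 6) h4') (pow_pos h2' 2))

/-- the arithmetic part: the denominator of the invariant over the square of the conductor -/
noncomputable def ratio (lam : ℤ × ℤ → ℕ) (q : ℤ × ℤ) : ℚ :=
  ((jq q).den : ℚ) / ((lam q * condS q.1 q.2 : ℕ) : ℚ) ^ 2

lemma sw_of {q : ℤ × ℤ} (hmin : IsMin q.1 q.2) (hf : FullS q.1 q.2) {w : ℕ}
    (hw : D q.1 q.2 = ((w * condS q.1 q.2 : ℕ) : ℤ) ^ 2) :
    ∃ p : ℕ × ℕ, p ∈ Sw w ∧ mo p = q ∧ condS q.1 q.2 = g6 p := by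
  obtain ⟨p, hp, he⟩ := mo_surj hmin hf
  have he' : mo p = q := he
  have hcd : condS q.1 q.2 = g6 p := by rw [← he']; exact mo_cond hp
  have hD : D q.1 q.2 = (nn p : ℤ) ^ 2 := by rw [← he']; exact mo_D hp.2.2.1
  refine ⟨p, ⟨hp, ?_⟩, he', hcd⟩
  rw [hcd, hD] at hw
  have h5 : nn p ^ 2 = (w * g6 p) ^ 2 := by exact_mod_cast hw
  exact (Nat.pow_left_injective (by norm_num : 2 ≠ 0)) h5

lemma w_pos' {q : ℤ × ℤ} (hmin : IsMin q.1 q.2) {w : ℕ}
    (hw : D q.1 q.2 = ((w * condS q.1 q.2 : ℕ) : ℤ) ^ 2) : 1 ≤ w :=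
  Pool.Agent.R465.FH.w_pos hmin hw

lemma ratio_eq {lam : ℤ × ℤ → ℕ} (hl : Fac lam) {q : ℤ × ℤ}
    (hmin : IsMin q.1 q.2) (hf : FullS q.1 q.2) {w : ℕ}
    (hw : D q.1 q.2 = ((w * condS q.1 q.2 : ℕ) : ℤ) ^ 2) : ratio lam q = val w (cs lam q) := by
  obtain ⟨p, hp, he, hcd⟩ := sw_of hmin hf hw
  have hw1 := w_pos' hmin hw
  obtain ⟨h4, h5⟩ := hl.1 q hmin hf
  have hct : ct q = Nat.gcd p.1 p.2 := by rw [← he]; exact ct_mo hp.1
  have hg0 : 0 < Nat.gcd p.1 p.2 := Nat.gcd_pos_of_pos_left _ hp.1.1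
  have e1 : mOf (cs lam q) = Nat.gcd p.1 p.2 := by
    unfold mOf cs
    rw [Nat.unpair_pair]
    simp only
    rw [hct]
    exact max_eq_left hg0
  have e2 : fOf (cs lam q) = lam q := by
    unfold fOf cs
    rw [Nat.unpair_pair]
    simp only
    rw [max_eq_left h4, min_eq_left h5]
  have h6 := j_den hp
  rw [he] at h6
  obtain ⟨g, hg⟩ : ∃ g, g = Nat.gcd p.1 p.2 := ⟨_, rfl⟩
  rw [← hg] at h6 e1 hg0
  obtain ⟨X, hX⟩ : ∃ X, X = Nat.gcd (256 * Nat.gcd g 2 ^ 6) (w ^ 2) := ⟨_, rfl⟩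
  obtain ⟨G, hG⟩ : ∃ G, G = Nat.gcd g 2 := ⟨_, rfl⟩
  have hX0 : 0 < X := by
    rw [hX]
    exact Nat.gcd_pos_of_pos_right _ (by positivity)
  rw [← hX, ← hG] at h6
  have hc : ((g6 p : ℕ) : ℚ) ≠ 0 := by exact_mod_cast (g6_pos p).ne'
  have hl0 : (lam q : ℚ) ≠ 0 := by
    have : lam q ≠ 0 := by omega
    exact_mod_cast this
  have hgq : (g : ℚ) ≠ 0 := by exact_mod_cast hg0.ne'
  have hXq : (X : ℚ) ≠ 0 := by exact_mod_cast hX0.ne'
  have h7 : ((jq q).den : ℚ) * ((g : ℚ) ^ 6 * X) = (w : ℚ) ^ 2 * (g6 p : ℚ) ^ 2 * (G : ℚ) ^ 6 := by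
    exact_mod_cast h6
  unfold ratio val
  rw [e1, e2, hcd, ← hX, ← hG]
  have h8 : ((jq q).den : ℚ) = (w : ℚ) ^ 2 * (g6 p : ℚ) ^ 2 * (G : ℚ) ^ 6 / ((g : ℚ) ^ 6 * X) := by
    rw [← h7]
    field_simp
  rw [h8]
  push_cast
  field_simp

/-- the bound for the classes -/
def Bd (w : ℕ) : ℕ := (max (18 * w) 62208 + 1) ^ 2

lemma cs_bd {lam : ℤ × ℤ → ℕ} (hl : Fac lam) : Bw (cs lam) Bd := by
  intro q w h1 h2 h3
  obtain ⟨p, hp, he, hcd⟩ := sw_of h1 h2 h3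
  have hw1 := w_pos' h1 h3
  have hct : ct q = Nat.gcd p.1 p.2 := by rw [← he]; exact ct_mo hp.1
  have h4 : ct q ≤ 18 * w := by
    rw [hct]
    exact Nat.le_of_dvd (by omega) (gcd_dvd (by omega) hp)
  have h5 := (hl.1 q h1 h2).2
  have h6 := Nat.pair_lt_max_add_one_sq (ct q) (lam q)
  have h7 : (max (ct q) (lam q) + 1) ^ 2 ≤ Bd w :=
    Nat.pow_le_pow_left (by have := max_le_max h4 h5; omega) 2
  exact (h6.trans_le h7).le

/-- **The sum law, stable case.** -/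
theorem gen {lam : ℤ × ℤ → ℕ} (hl : Fac lam) :
    ∃ (A : ℝ) (ν : ℚ → ℝ), 0 < A ∧ (∀ v, 0 ≤ ν v) ∧ HasSum ν 1 ∧ (∀ v, ν v ≠ 0 → 0 < v) ∧
      Tendsto (fun N : ℝ => ((Md lam N).ncard : ℝ) / N ^ ((2 : ℝ) / 3)) atTop (𝓝 A) ∧
      ∀ g : ℚ → ℝ, Tendsto (fun N : ℝ => (({q | q ∈ Md lam N ∧ ((Hh q : ℤ) : ℝ) ≤
          g (ratio lam q) * ((D q.1 q.2 : ℤ) : ℝ)} : Set (ℤ × ℤ)).ncard : ℝ) / N ^ ((2 : ℝ) / 3))
          atTop (𝓝 (A * ∑' v, ν v * Fl (g v))) := by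
  classical
  obtain ⟨A, α, hA, hα, hα0, hsum, hMd, hT⟩ := joint hl (fun w hw l m => Pg_loc hl hw l m)
    (cs_bd hl)
  -- the mass function on the pairs
  set β : ℕ × ℕ → ℝ := fun i => if i.2 ∈ range (Bd i.1 + 1) then α i.1 i.2 / A else 0 with hβ
  have hβ0 : ∀ i, 0 ≤ β i := by
    intro i
    rw [hβ]
    simp only
    split_ifs
    · exact div_nonneg (hα _ _) hA.le
    · exact le_rfl
  have hfib : ∀ (w : ℕ) (F : ℕ → ℝ), HasSum (fun k => β (w, k) * F k)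
      ((∑ m ∈ range (Bd w + 1), α w m * F m) / A) := by
    intro w F
    have h1 : HasSum (fun k => β (w, k) * F k) (∑ k ∈ range (Bd w + 1), β (w, k) * F k) :=
      hasSum_sum_of_ne_finset_zero fun k hk => by simp only [hβ, if_neg hk, zero_mul]
    have h2 : ∑ k ∈ range (Bd w + 1), β (w, k) * F k =
        (∑ m ∈ range (Bd w + 1), α w m * F m) / A := by
      rw [sum_div]
      refine sum_congr rfl fun k hk => ?_
      simp only [hβ, if_pos hk]
      ring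
    rwa [h2] at h1
  have hfib1 : ∀ w, HasSum (fun k => β (w, k)) ((∑ m ∈ range (Bd w + 1), α w m) / A) := by
    intro w
    have := hfib w (fun _ => 1)
    simpa only [mul_one] using this
  have hsumA : HasSum (fun w => (∑ m ∈ range (Bd w + 1), α w m) / A) 1 := by
    have := hsum.div_const A
    rwa [div_self hA.ne'] at this
  have hβs : Summable β := by
    rw [summable_prod_of_nonneg (fun i => hβ0 i)]
    refine ⟨fun w => (hfib1 w).summable, ?_⟩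
    have : (fun w => ∑' k, β (w, k)) = fun w => (∑ m ∈ range (Bd w + 1), α w m) / A :=
      funext fun w => (hfib1 w).tsum_eq
    rw [this]
    exact hsumA.summable
  have hβ1 : HasSum β 1 := by
    have h1 := hβs.hasSum
    rw [hβs.tsum_prod' fun w => (hfib1 w).summable] at h1
    have : (fun w => ∑' k, β (w, k)) = fun w => (∑ m ∈ range (Bd w + 1), α w m) / A :=
      funext fun w => (hfib1 w).tsum_eq
    rw [this, hsumA.tsum_eq] at h1
    exact h1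
  set vl : ℕ × ℕ → ℚ := fun i => val i.1 i.2 with hvl
  set ν : ℚ → ℝ := fun v => ∑' i : (vl ⁻¹' {v} : Set (ℕ × ℕ)), β i with hν
  have hν1 : HasSum ν 1 := hβ1.tsum_fiberwise vl
  refine ⟨A, ν, hA, fun v => tsum_nonneg fun i => hβ0 _, hν1, fun v hv => ?_, hMd,
    fun g => ?_⟩
  · by_contra hcon
    apply hv
    have h1 : ∀ i : (vl ⁻¹' {v} : Set (ℕ × ℕ)), β i = 0 := by
      rintro ⟨⟨w, k⟩, hi⟩
      have hi' : val w k = v := hi
      rcases Nat.eq_zero_or_pos w with rfl | hw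
      · simp only [hβ, hα0, zero_div, ite_self]
      · exfalso
        have h2 := val_pos (k := k) hw
        rw [hi'] at h2
        exact hcon h2
    rw [hν]
    simp only [h1, tsum_zero]
  · have hset : ∀ N, ({q | q ∈ Md lam N ∧ ((Hh q : ℤ) : ℝ) ≤
        g (ratio lam q) * ((D q.1 q.2 : ℤ) : ℝ)} : Set (ℤ × ℤ)) =
        Mg lam (cs lam) (fun w k => g (val w k)) N := by
      intro N
      ext q
      constructor
      · rintro ⟨h1, h2⟩
        obtain ⟨w, -, hw⟩ := quot h1.1 h1.2.1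
        refine ⟨h1, w, hw, ?_⟩
        rw [ratio_eq hl h1.1 h1.2.1 hw] at h2
        exact h2
      · rintro ⟨h1, w, hw, h2⟩
        refine ⟨h1, ?_⟩
        rw [ratio_eq hl h1.1 h1.2.1 hw]
        exact h2
    simp only [hset]
    have hval : ∑' w : ℕ, ∑ m ∈ range (Bd w + 1), α w m * Fl (g (val w m)) =
        A * ∑' v, ν v * Fl (g v) := by
      have hsF : Summable fun i : ℕ × ℕ => β i * Fl (g (vl i)) := by
        refine Summable.of_nonneg_of_le (fun i => mul_nonneg (hβ0 i) (Fl_nonneg _))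
          (fun i => ?_) hβs
        have := mul_le_mul_of_nonneg_left (Fl_le_one (g (vl i))) (hβ0 i)
        rwa [mul_one] at this
      have h2 := hsF.hasSum.tsum_fiberwise vl
      have h3 : (fun v => ∑' i : (vl ⁻¹' {v} : Set (ℕ × ℕ)), β i * Fl (g (vl i))) =
          fun v => ν v * Fl (g v) := by
        funext v
        rw [hν]
        simp only
        rw [← tsum_mul_right]
        refine tsum_congr fun i => ?_
        rw [show vl i = v from i.2]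
      rw [h3] at h2
      rw [h2.tsum_eq, hsF.tsum_prod' fun w => (hfib w fun k => Fl (g (val w k))).summable]
      have h4 : (fun w => ∑' k, β (w, k) * Fl (g (vl (w, k)))) =
          fun w => (∑ m ∈ range (Bd w + 1), α w m * Fl (g (val w m))) / A :=
        funext fun w => (hfib w fun k => Fl (g (val w k))).tsum_eq
      rw [h4, tsum_div_const, mul_div_cancel₀ _ hA.ne']
    rw [← hval]
    exact hT _

end Pool.Agent.P8H82.SH
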