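import Mathlib
import Pool.Agent.P8H82.SH.Cts

set_option autoImplicit false

/-!
# The limit law of the stable Faltings height
-/

namespace Pool.Agent.P8H82.SH

open Filter Topology Pool.Agent.Y679.Jl Pool.Agent.H925R.Szpiro Pool.Agent.Y679.Par
  Pool.Agent.Y679.Cur
open Pool.Agent.TH876.FH (jInv arch)
open Pool.Agent.R465.FH (EE IsPer D_pos2 per_ex arch_iff archLaw archLaw_eq archLaw_nonneg
  archLaw_le_one archLaw_zero archLaw_mono archLaw_lt_one archLaw_cont archLaw_top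
  law_summable ar)

/-- the stable height -/
noncomputable def hs (q : ℤ × ℤ) (τ : UpperHalfPlane) : ℝ :=
  (Real.log ((jq q).den : ℝ) + arch τ) / 12

lemma log_ratio {lam : ℤ × ℤ → ℕ} (hl : Fac lam) {q : ℤ × ℤ}
    (h1 : IsMin q.1 q.2) (h2 : FullS q.1 q.2) :
    Real.log (ratio lam q) = Real.log ((jq q).den : ℝ) -
      2 * Real.log ((lam q * condS q.1 q.2 : ℕ) : ℝ) := by
  have h4 : ((lam q * condS q.1 q.2 : ℕ) : ℝ) ≠ 0 := by
    have h5 := condS_pos q.1 q.2
    have h6 := (hl.1 q h1 h2).1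
    have : lam q * condS q.1 q.2 ≠ 0 := by positivity
    exact_mod_cast this
  have h7 : ((jq q).den : ℝ) ≠ 0 := by exact_mod_cast (jq q).den_nz
  have h9 : ((ratio lam q : ℚ) : ℝ) = ((jq q).den : ℝ) / ((lam q * condS q.1 q.2 : ℕ) : ℝ) ^ 2 := by
    unfold ratio
    push_cast
    rfl
  rw [h9, Real.log_div h7 (pow_ne_zero _ h4), Real.log_pow]
  push_cast
  ring

lemma set1 {lam : ℤ × ℤ → ℕ} (v : ℚ) (x N : ℝ) :
    ({q | q ∈ Md lam N ∧ ∃ τ, IsPer q τ ∧ (ratio lam q = v ∧ arch τ ≤ x)} : Set (ℤ × ℤ)) =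
      {q | q ∈ Md lam N ∧ ((Hh q : ℤ) : ℝ) ≤
        (if ratio lam q = v then Pool.Agent.R465.FH.Th x else 0) *
          ((D q.1 q.2 : ℤ) : ℝ)} := by
  ext q
  constructor
  · rintro ⟨hq, τ, hτ, hv, ha⟩
    refine ⟨hq, ?_⟩
    rw [if_pos hv]
    exact (arch_iff hq.1 hq.2.1 x).1 ⟨τ, hτ, ha⟩
  · rintro ⟨hq, h⟩
    refine ⟨hq, ?_⟩
    by_cases hv : ratio lam q = v
    · rw [if_pos hv] at h
      obtain ⟨τ, hτ, ha⟩ := (arch_iff hq.1 hq.2.1 x).2 h
      exact ⟨τ, hτ, hv, ha⟩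
    · rw [if_neg hv, zero_mul] at h
      have hD : (0 : ℝ) < ((D q.1 q.2 : ℤ) : ℝ) := by exact_mod_cast D_pos2 hq.1 hq.2.1
      have hH : ((D q.1 q.2 : ℤ) : ℝ) ≤ ((Hh q : ℤ) : ℝ) := by exact_mod_cast D_le_H q
      linarith

lemma set2 {lam : ℤ × ℤ → ℕ} (hl : Fac lam) (x N : ℝ) :
    ({q | q ∈ Md lam N ∧ ∃ τ, IsPer q τ ∧
      hs q τ ≤ Real.log ((lam q * condS q.1 q.2 : ℕ) : ℝ) / 6 + x} : Set (ℤ × ℤ)) =
      {q | q ∈ Md lam N ∧ ((Hh q : ℤ) : ℝ) ≤
        Pool.Agent.R465.FH.Th (12 * x - Real.log (ratio lam q)) * ((D q.1 q.2 : ℤ) : ℝ)} := by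
  ext q
  constructor
  · rintro ⟨hq, τ, hτ, ha⟩
    refine ⟨hq, (arch_iff hq.1 hq.2.1 _).1 ⟨τ, hτ, ?_⟩⟩
    rw [log_ratio hl hq.1 hq.2.1]
    unfold hs at ha
    linarith
  · rintro ⟨hq, h⟩
    obtain ⟨τ, hτ, ha⟩ := (arch_iff hq.1 hq.2.1 _).2 h
    refine ⟨hq, τ, hτ, ?_⟩
    rw [log_ratio hl hq.1 hq.2.1] at ha
    unfold hs
    linarith

/-- the limit law -/
noncomputable def law (ν : ℚ → ℝ) (x : ℝ) : ℝ := ∑' v : ℚ, ν v * archLaw (12 * x - Real.log v)

/-- the share -/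
noncomputable def share (lam : ℤ × ℤ → ℕ) (P : ℤ × ℤ → UpperHalfPlane → Prop) (N : ℝ) : ℝ :=
  (({q | q ∈ Md lam N ∧ ∃ τ, IsPer q τ ∧ P q τ} : Set (ℤ × ℤ)).ncard : ℝ) / ((Md lam N).ncard : ℝ)

/-- the properties of the distribution function -/
theorem law_props {ν : ℚ → ℝ} (h0 : ∀ v, 0 ≤ ν v) (h1 : HasSum ν 1) :
    Continuous (law ν) ∧ Monotone (law ν) ∧ (∀ x, law ν x < 1) ∧
      Tendsto (law ν) atBot (𝓝 0) ∧ Tendsto (law ν) atTop (𝓝 1) := by
  refine ⟨?_, ?_, fun x => ?_, ?_, ?_⟩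
  · unfold law
    refine continuous_tsum (u := ν) (fun v => ?_) h1.summable fun v x => ?_
    · exact continuous_const.mul (archLaw_cont.comp (by fun_prop))
    · rw [Real.norm_of_nonneg (mul_nonneg (h0 v) (archLaw_nonneg _))]
      have := mul_le_mul_of_nonneg_left (archLaw_le_one (12 * x - Real.log v)) (h0 v)
      rwa [mul_one] at this
  · intro x y hxy
    refine (law_summable h0 h1.summable x).tsum_le_tsum (fun v => ?_)
      (law_summable h0 h1.summable y)
    exact mul_le_mul_of_nonneg_left (archLaw_mono (by linarith)) (h0 v)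
  · obtain ⟨v, hv⟩ : ∃ v, ν v ≠ 0 := by
      by_contra hcon
      push Not at hcon
      have : ν = fun _ => 0 := funext hcon
      rw [this] at h1
      exact zero_ne_one (hasSum_zero.unique h1)
    have h2 : law ν x < ∑' v, ν v := by
      refine Summable.tsum_lt_tsum (i := v) (fun u => ?_) ?_ (law_summable h0 h1.summable x)
        h1.summable
      · have := mul_le_mul_of_nonneg_left (archLaw_le_one (12 * x - Real.log u)) (h0 u)
        rwa [mul_one] at this
      · have h3 : 0 < ν v := lt_of_le_of_ne (h0 v) (Ne.symm hv)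
        have := mul_lt_mul_of_pos_left (archLaw_lt_one (12 * x - Real.log v)) h3
        rwa [mul_one] at this
    rwa [h1.tsum_eq] at h2
  · have h2 : Tendsto (fun x : ℝ => ∑' v : ℚ, ν v * archLaw (12 * x - Real.log v)) atBot
        (𝓝 (∑' _ : ℚ, (0 : ℝ))) := by
      refine tendsto_tsum_of_dominated_convergence (bound := ν) h1.summable (fun v => ?_) ?_
      · refine tendsto_const_nhds.congr' ?_
        filter_upwards [eventually_lt_atBot ((ar 1 + Real.log v) / 12)] with x hx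
        rw [archLaw_zero (by linarith), mul_zero]
      · filter_upwards with x v
        rw [Real.norm_of_nonneg (mul_nonneg (h0 v) (archLaw_nonneg _))]
        have := mul_le_mul_of_nonneg_left (archLaw_le_one (12 * x - Real.log v)) (h0 v)
        rwa [mul_one] at this
    rw [tsum_zero] at h2
    exact h2
  · have h2 : Tendsto (fun x : ℝ => ∑' v : ℚ, ν v * archLaw (12 * x - Real.log v)) atTop
        (𝓝 (∑' v : ℚ, ν v)) := by
      refine tendsto_tsum_of_dominated_convergence (bound := ν) h1.summable (fun v => ?_) ?_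
      · have h3 : Tendsto (fun x : ℝ => 12 * x - Real.log v) atTop atTop :=
          tendsto_atTop_add_const_right _ _ (tendsto_id.const_mul_atTop (by norm_num))
        have h4 := (archLaw_top.comp h3).const_mul (ν v)
        rwa [mul_one] at h4
      · filter_upwards with x v
        rw [Real.norm_of_nonneg (mul_nonneg (h0 v) (archLaw_nonneg _))]
        have := mul_le_mul_of_nonneg_left (archLaw_le_one (12 * x - Real.log v)) (h0 v)
        rwa [mul_one] at this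
    rw [h1.tsum_eq] at h2
    exact h2

theorem main {lam : ℤ × ℤ → ℕ} (hl : Fac lam) :
    ∃ (A : ℝ) (ν : ℚ → ℝ), 0 < A ∧ (∀ v, 0 ≤ ν v) ∧ (∀ v, ν v ≠ 0 → 0 < v) ∧ HasSum ν 1 ∧
      Tendsto (fun N : ℝ => ((Md lam N).ncard : ℝ) / N ^ ((2 : ℝ) / 3)) atTop (𝓝 A) ∧
      (∀ (v : ℚ) (x : ℝ), Tendsto (share lam fun q τ => ratio lam q = v ∧ arch τ ≤ x) atTop
        (𝓝 (ν v * archLaw x))) ∧
      (∀ x : ℝ, Tendsto (share lam fun q τ =>
        hs q τ ≤ Real.log ((lam q * condS q.1 q.2 : ℕ) : ℝ) / 6 + x) atTop (𝓝 (law ν x))) := by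
  classical
  obtain ⟨A, ν, hA, h0, h1, hpos, hMd, hgen⟩ := gen hl
  have hs : ∀ g : ℚ → ℝ,
      Tendsto (fun N : ℝ => (({q | q ∈ Md lam N ∧ ((Hh q : ℤ) : ℝ) ≤
        g (ratio lam q) * ((D q.1 q.2 : ℤ) : ℝ)} : Set (ℤ × ℤ)).ncard : ℝ) /
          ((Md lam N).ncard : ℝ)) atTop (𝓝 (∑' v, ν v * Fl (g v))) := by
    intro g
    have h2 := (hgen g).div hMd hA.ne'
    rw [mul_div_cancel_left₀ _ hA.ne'] at h2
    refine h2.congr' ?_
    filter_upwards [eventually_gt_atTop 0] with N hN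
    have h3 : (0 : ℝ) < N ^ ((2 : ℝ) / 3) := by positivity
    exact div_div_div_cancel_right₀ h3.ne' _ _
  refine ⟨A, ν, hA, h0, hpos, h1, hMd, fun v x => ?_, fun x => ?_⟩
  · have h2 := hs (fun u => if u = v then Pool.Agent.R465.FH.Th x else 0)
    have h3 : ∑' u, ν u * Fl (if u = v then Pool.Agent.R465.FH.Th x else 0) = ν v * archLaw x := by
      rw [tsum_eq_single v fun u hu => by rw [if_neg hu, Fl_small (by norm_num), mul_zero],
        if_pos rfl, archLaw_eq]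
    rw [h3] at h2
    refine h2.congr fun N => ?_
    unfold share
    rw [set1]
  · have h2 := hs (fun u => Pool.Agent.R465.FH.Th (12 * x - Real.log u))
    have h3 : ∑' u : ℚ, ν u * Fl (Pool.Agent.R465.FH.Th (12 * x - Real.log u)) = law ν x := by
      unfold law
      simp only [archLaw_eq]
    rw [h3] at h2
    refine h2.congr fun N => ?_
    unfold share
    rw [set2 hl]

end Pool.Agent.P8H82.SH
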