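import Mathlib
import Pool.Agent.P8H82.SH.End

set_option autoImplicit false

/-!
# The limit law is positive everywhere: twists
-/

namespace Pool.Agent.P8H82.SH

open Finset Filter Topology Pool.Agent.TH498.AR Pool.Agent.H925R.Szpiro Pool.Agent.Y679.Par
  Pool.Agent.Y679.Cur Pool.Agent.Y679.Jl
open Pool.Agent.TH876.FH (jInv arch)
open Pool.Agent.R465.FH (EE IsPer)

/-- the twist of the gaps -/
def tw (d : ℕ) (p : ℕ × ℕ) : ℕ × ℕ := (d * p.1, d * p.2)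

theorem Gd_tw {d : ℕ} (hd : d.Prime) (hd5 : 5 ≤ d) {p : ℕ × ℕ} (hp : Gd p)
    (hdp : ¬ (d ∣ p.1 ∧ d ∣ p.2)) : Gd (tw d p) := by
  obtain ⟨h1, h2, h3, h4, h5⟩ := hp
  have hd0 := hd.pos
  have e : ((d * p.1 : ℕ) : ℤ) - ((d * p.2 : ℕ) : ℤ) = d * ((p.1 : ℤ) - p.2) := by
    push_cast
    ring
  have hd3 : Nat.Coprime 3 d := (Nat.coprime_primes Nat.prime_three hd).2 (by omega)
  refine ⟨Nat.mul_pos hd0 h1, Nat.mul_pos hd0 h2, ?_, ?_, ?_⟩
  · show (3 : ℤ) ∣ ((d * p.1 : ℕ) : ℤ) - ((d * p.2 : ℕ) : ℤ)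
    rw [e]
    exact h3.mul_left _
  · rintro q hq hq3 ⟨hc1, hc2⟩
    change q ^ 2 ∣ d * p.1 at hc1
    change q ^ 2 ∣ d * p.2 at hc2
    by_cases hqd : q = d
    · subst hqd
      apply hdp
      rw [pow_two] at hc1 hc2
      exact ⟨Nat.dvd_of_mul_dvd_mul_left hd0 hc1, Nat.dvd_of_mul_dvd_mul_left hd0 hc2⟩
    · have hcop : Nat.Coprime (q ^ 2) d := ((Nat.coprime_primes hq hd).2 hqd).pow_left 2
      exact h4 q hq hq3 ⟨hcop.dvd_of_dvd_mul_left hc1, hcop.dvd_of_dvd_mul_left hc2⟩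
  · rintro ⟨hc1, hc2⟩
    change 9 ∣ d * p.1 at hc1
    change (27 : ℤ) ∣ ((d * p.1 : ℕ) : ℤ) - ((d * p.2 : ℕ) : ℤ) at hc2
    rw [e] at hc2
    have h9 : Nat.Coprime 9 d := by
      have := hd3.pow_left 2
      norm_num at this
      exact this
    have h27 : IsCoprime (27 : ℤ) (d : ℤ) := by
      have := hd3.pow_left 3
      norm_num at this
      exact_mod_cast Nat.isCoprime_iff_coprime.2 this
    exact h5 ⟨h9.dvd_of_dvd_mul_left hc1, h27.dvd_of_dvd_mul_left hc2⟩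

theorem nn_tw (d : ℕ) (p : ℕ × ℕ) : nn (tw d p) = d ^ 3 * nn p := by
  unfold nn tw
  simp only
  ring

theorem kq_tw {d : ℕ} (hd : d.Prime) (p : ℕ × ℕ) {q : ℕ} (hq : q.Prime) (hqd : q ≠ d) :
    kq (tw d p) q = kq p q := by
  have hc : Nat.Coprime q d := (Nat.coprime_primes hq hd).2 hqd
  have e1 : q ∣ nn (tw d p) ↔ q ∣ nn p := by
    rw [nn_tw]
    exact ⟨fun h => (hc.pow_right 3).dvd_of_dvd_mul_left h, fun h => h.mul_left _⟩
  have e2 : ∀ x : ℕ, q ∣ d * x ↔ q ∣ x := fun x =>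
    ⟨fun h => hc.dvd_of_dvd_mul_left h, fun h => h.mul_left _⟩
  have e3 : (q ∣ (tw d p).1 ∧ q ∣ (tw d p).2) ↔ (q ∣ p.1 ∧ q ∣ p.2) := by
    unfold tw
    simp only [e2]
  unfold kq
  simp only [e1, e3]

theorem g6_tw {d : ℕ} (hd : d.Prime) (hd5 : 5 ≤ d) {p : ℕ × ℕ} (hp : Gd p)
    (hdp : ¬ (d ∣ p.1 ∧ d ∣ p.2)) : g6 (tw d p) ≤ d ^ 2 * g6 p ∧ d * g6 p ≤ g6 (tw d p) := by
  have hG := Gd_tw hd hd5 hp hdp
  have hd0 := hd.pos
  have hgp := g6_pos p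
  have hgt := g6_pos (tw d p)
  have hk1 : kq p d ≤ 1 := by
    unfold kq
    rw [if_neg hdp]
    split_ifs <;> omega
  have hk2 : kq (tw d p) d = 2 := by
    unfold kq
    rw [if_pos ⟨hd5, by rw [nn_tw]; exact (dvd_pow_self d (by norm_num)).mul_right _⟩,
      if_pos ⟨Dvd.intro _ rfl, Dvd.intro _ rfl⟩]
  constructor
  · refine Nat.le_of_dvd (by positivity) ?_
    rw [← Nat.factorization_prime_le_iff_dvd hgt.ne' (by positivity)]
    intro q hq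
    rw [fact_g6 hG.1 hG.2.1 hq, Nat.factorization_mul (by positivity) hgp.ne', Finsupp.add_apply,
      fact_g6 hp.1 hp.2.1 hq, Nat.factorization_pow, hd.factorization, Finsupp.smul_apply,
      Finsupp.single_apply]
    by_cases hqd : q = d
    · subst hqd
      rw [hk2, if_pos rfl]
      simp
    · rw [kq_tw hd p hq hqd]
      omega
  · refine Nat.le_of_dvd hgt ?_
    rw [← Nat.factorization_prime_le_iff_dvd (by positivity) hgt.ne']
    intro q hq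
    rw [fact_g6 hG.1 hG.2.1 hq, Nat.factorization_mul hd0.ne' hgp.ne', Finsupp.add_apply,
      fact_g6 hp.1 hp.2.1 hq, hd.factorization, Finsupp.single_apply]
    by_cases hqd : q = d
    · subst hqd
      rw [hk2, if_pos rfl]
      omega
    · rw [kq_tw hd p hq hqd, if_neg (Ne.symm hqd)]
      omega

theorem jq_tw {d : ℕ} (hd : 0 < d) {p : ℕ × ℕ} (hp : Gd p) (hp' : Gd (tw d p)) :
    jq (mo (tw d p)) = jq (mo p) := by
  have hn : (nn p : ℚ) ≠ 0 := by exact_mod_cast (nn_pos' hp).ne'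
  have hd' : (d : ℚ) ≠ 0 := by exact_mod_cast hd.ne'
  rw [jq_mo hp', jq_mo hp, nn_tw]
  unfold tw
  push_cast
  field_simp

/-- the gaps of a model -/
noncomputable def gp (q : ℤ × ℤ) : ℕ × ℕ := by
  classical
  exact if h : ∃ p : ℕ × ℕ, Gd p ∧ mo p = q then h.choose else (1, 1)

theorem gp_spec {q : ℤ × ℤ} (h1 : IsMin q.1 q.2) (h2 : FullS q.1 q.2) :
    Gd (gp q) ∧ mo (gp q) = q := by
  have h : ∃ p : ℕ × ℕ, Gd p ∧ mo p = q := mo_surj h1 h2
  have e : gp q = h.choose := by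
    unfold gp
    rw [dif_pos h]
  rw [e]
  exact h.choose_spec

/-- the curves with conductor at most `X` and centred height at most `y` -/
def SS (lam : ℤ × ℤ → ℕ) (X y : ℝ) : Set (ℤ × ℤ) :=
  {q | q ∈ Md lam X ∧ ∃ τ, IsPer q τ ∧
    hs q τ ≤ Real.log ((lam q * condS q.1 q.2 : ℕ) : ℝ) / 6 + y}

theorem Md_finite {lam : ℤ × ℤ → ℕ} (hl : Fac lam) (X : ℝ) : (Md lam X).Finite := by
  rcases le_or_gt 1 X with h | h
  · exact Md_fin (fun q a b => (hl.1 q a b).1) h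
  · exact (Md_fin (fun q a b => (hl.1 q a b).1) le_rfl).subset fun q hq =>
      ⟨hq.1, hq.2.1, hq.2.2.trans h.le⟩

theorem ineq1 {lam : ℤ × ℤ → ℕ} (hl : Fac lam) {d : ℕ} (hd : d.Prime) (hd5 : 5 ≤ d) {X y : ℝ}
    (hX : 0 < X) :
    {q | q ∈ SS lam (X / (62208 * (d : ℝ) ^ 2)) (y + Real.log ((d : ℝ) / 62208) / 6) ∧
      ¬ d ∣ ct q}.ncard ≤ (SS lam X y).ncard := by
  have hd0 := hd.pos
  have hdr : (0 : ℝ) < d := by exact_mod_cast hd0
  refine Set.ncard_le_ncard_of_injOn (fun q => mo (tw d (gp q))) ?_ ?_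
    ((Md_finite hl X).subset fun q hq => hq.1)
  · rintro q ⟨⟨⟨h1, h2, h3⟩, τ, hτ, ha⟩, hc⟩
    obtain ⟨g1, g2⟩ := gp_spec h1 h2
    obtain ⟨p, hp⟩ : ∃ p, p = gp q := ⟨_, rfl⟩
    rw [← hp] at g1 g2
    have hdp : ¬ (d ∣ p.1 ∧ d ∣ p.2) := fun h => hc (by
      rw [← g2, ct_mo g1]
      exact Nat.dvd_gcd h.1 h.2)
    have hG := Gd_tw hd hd5 g1 hdp
    obtain ⟨b1, b2⟩ := g6_tw hd hd5 g1 hdp
    have m1 := mo_min hG
    have m2 := mo_full hG.2.2.1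
    have c1 : condS q.1 q.2 = g6 p := by rw [← g2]; exact mo_cond g1
    have c2 := mo_cond hG
    obtain ⟨l1, l2⟩ := hl.1 q h1 h2
    obtain ⟨l3, l4⟩ := hl.1 _ m1 m2
    have hj := jq_tw hd0 g1 hG
    rw [g2] at hj
    rw [← hp]
    -- the conductor of the twist
    have u1 : ((lam (mo (tw d p)) * condS (mo (tw d p)).1 (mo (tw d p)).2 : ℕ) : ℝ) ≤
        62208 * (d : ℝ) ^ 2 * ((lam q * condS q.1 q.2 : ℕ) : ℝ) := by
      have : lam (mo (tw d p)) * condS (mo (tw d p)).1 (mo (tw d p)).2 ≤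
          62208 * d ^ 2 * (lam q * condS q.1 q.2) := by
        rw [c1, c2]
        calc lam (mo (tw d p)) * g6 (tw d p) ≤ 62208 * (d ^ 2 * g6 p) := Nat.mul_le_mul l4 b1
          _ = 62208 * d ^ 2 * (1 * g6 p) := by ring
          _ ≤ _ := Nat.mul_le_mul_left _ (Nat.mul_le_mul_right _ l1)
      exact_mod_cast this
    have u2 : (d : ℝ) / 62208 * ((lam q * condS q.1 q.2 : ℕ) : ℝ) ≤
        ((lam (mo (tw d p)) * condS (mo (tw d p)).1 (mo (tw d p)).2 : ℕ) : ℝ) := by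
      have : d * (lam q * condS q.1 q.2) ≤
          62208 * (lam (mo (tw d p)) * condS (mo (tw d p)).1 (mo (tw d p)).2) := by
        rw [c1, c2]
        calc d * (lam q * g6 p) = lam q * (d * g6 p) := by ring
          _ ≤ 62208 * g6 (tw d p) := Nat.mul_le_mul l2 b2
          _ = 62208 * (1 * g6 (tw d p)) := by ring
          _ ≤ _ := Nat.mul_le_mul_left _ (Nat.mul_le_mul_right _ l3)
      have h' : (d : ℝ) * ((lam q * condS q.1 q.2 : ℕ) : ℝ) ≤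
          62208 * ((lam (mo (tw d p)) * condS (mo (tw d p)).1 (mo (tw d p)).2 : ℕ) : ℝ) := by
        exact_mod_cast this
      rw [div_mul_eq_mul_div, div_le_iff₀ (by norm_num)]
      linarith
    have hc0 : (0 : ℝ) < ((lam q * condS q.1 q.2 : ℕ) : ℝ) := by
      have := Nat.mul_pos (show 0 < lam q by omega) (condS_pos q.1 q.2)
      exact_mod_cast this
    refine ⟨⟨m1, m2, u1.trans ?_⟩, τ, ?_, ?_⟩
    · rw [le_div_iff₀ (by positivity)] at h3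
      linarith
    · obtain ⟨t1, t2, t3⟩ := hτ
      refine ⟨t1, t2, ?_⟩
      rw [t3]
      have : (EE q).c₄ ^ 3 / (EE q).Δ =
          (EE (mo (tw d p))).c₄ ^ 3 / (EE (mo (tw d p))).Δ := hj.symm
      rw [this]
    · have e1 : hs (mo (tw d p)) τ = hs q τ := by
        unfold hs
        rw [hj]
      rw [e1]
      refine ha.trans ?_
      have h6 := Real.log_le_log (by positivity) u2
      rw [Real.log_mul (by positivity) hc0.ne'] at h6
      linarith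
  · rintro q ⟨⟨⟨h1, h2, -⟩, -⟩, hc⟩ q' ⟨⟨⟨h1', h2', -⟩, -⟩, hc'⟩ heq
    simp only at heq
    obtain ⟨g1, g2⟩ := gp_spec h1 h2
    obtain ⟨g1', g2'⟩ := gp_spec h1' h2'
    have hdp : ¬ (d ∣ (gp q).1 ∧ d ∣ (gp q).2) := fun h => hc (by
      rw [← g2, ct_mo g1]
      exact Nat.dvd_gcd h.1 h.2)
    have hdp' : ¬ (d ∣ (gp q').1 ∧ d ∣ (gp q').2) := fun h => hc' (by
      rw [← g2', ct_mo g1']
      exact Nat.dvd_gcd h.1 h.2)
    have h3 := mo_inj (Gd_tw hd hd5 g1 hdp) (Gd_tw hd hd5 g1' hdp') heq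
    unfold tw at h3
    have h4 := Prod.mk.inj h3
    have h5 : gp q = gp q' := Prod.ext (Nat.eq_of_mul_eq_mul_left hd0 h4.1)
      (Nat.eq_of_mul_eq_mul_left hd0 h4.2)
    rw [← g2, ← g2', h5]

theorem ineq2 {lam : ℤ × ℤ → ℕ} (hl : Fac lam) {d : ℕ} (hd : d.Prime) (hd5 : 5 ≤ d) {X : ℝ} :
    {q | q ∈ Md lam X ∧ d ∣ ct q}.ncard ≤ (Md lam (62208 * X / d)).ncard := by
  have hd0 := hd.pos
  have hdr : (0 : ℝ) < d := by exact_mod_cast hd0
  -- the untwisted gaps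
  have key : ∀ q : ℤ × ℤ, IsMin q.1 q.2 → FullS q.1 q.2 → d ∣ ct q →
      ∃ r : ℕ × ℕ, r = ((gp q).1 / d, (gp q).2 / d) ∧ tw d r = gp q ∧ Gd r ∧
        ¬ (d ∣ r.1 ∧ d ∣ r.2) := by
    intro q h1 h2 hc
    obtain ⟨g1, g2⟩ := gp_spec h1 h2
    rw [← g2, ct_mo g1] at hc
    obtain ⟨u, hu⟩ := hc.trans (Nat.gcd_dvd_left _ _)
    obtain ⟨v, hv⟩ := hc.trans (Nat.gcd_dvd_right _ _)
    obtain ⟨a1, a2, a3, a4, a5⟩ := g1
    have e1 : (gp q).1 / d = u := by rw [hu]; exact Nat.mul_div_cancel_left u hd0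
    have e2 : (gp q).2 / d = v := by rw [hv]; exact Nat.mul_div_cancel_left v hd0
    rw [hu] at a1
    rw [hv] at a2
    rw [hu, hv] at a3 a4 a5
    have hd3 : Nat.Coprime 3 d := (Nat.coprime_primes Nat.prime_three hd).2 (by omega)
    have e : ((d * u : ℕ) : ℤ) - ((d * v : ℕ) : ℤ) = d * ((u : ℤ) - v) := by
      push_cast
      ring
    rw [e] at a3 a5
    refine ⟨(u, v), by rw [e1, e2], ?_, ⟨Nat.pos_of_mul_pos_left a1 |>.trans_le le_rfl,
      Nat.pos_of_mul_pos_left a2 |>.trans_le le_rfl, ?_, ?_, ?_⟩, ?_⟩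
    · unfold tw
      exact Prod.ext hu.symm hv.symm
    · have h3 : IsCoprime (3 : ℤ) (d : ℤ) := by exact_mod_cast Nat.isCoprime_iff_coprime.2 hd3
      exact h3.dvd_of_dvd_mul_left a3
    · rintro q' hq' hq3 ⟨hc1, hc2⟩
      exact a4 q' hq' hq3 ⟨hc1.mul_left d, hc2.mul_left d⟩
    · rintro ⟨hc1, hc2⟩
      exact a5 ⟨hc1.mul_left d, hc2.mul_left _⟩
    · rintro ⟨hc1, hc2⟩
      refine a4 d hd (by omega) ⟨?_, ?_⟩
      · rw [pow_two]
        exact mul_dvd_mul_left d hc1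
      · rw [pow_two]
        exact mul_dvd_mul_left d hc2
  refine Set.ncard_le_ncard_of_injOn (fun q => mo ((gp q).1 / d, (gp q).2 / d)) ?_ ?_
    (Md_finite hl _)
  · rintro q ⟨⟨h1, h2, h3⟩, hc⟩
    obtain ⟨g1, g2⟩ := gp_spec h1 h2
    obtain ⟨r, hr, hr2, hG, hdr'⟩ := key q h1 h2 hc
    rw [← hr]
    have m1 := mo_min hG
    have m2 := mo_full hG.2.2.1
    obtain ⟨b1, b2⟩ := g6_tw hd hd5 hG hdr'
    rw [hr2] at b1 b2
    have c1 : condS q.1 q.2 = g6 (gp q) := by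
      conv_lhs => rw [← g2]
      exact mo_cond g1
    have c2 := mo_cond hG
    obtain ⟨l1, l2⟩ := hl.1 q h1 h2
    obtain ⟨l3, l4⟩ := hl.1 _ m1 m2
    refine ⟨m1, m2, ?_⟩
    rw [le_div_iff₀ hdr]
    have : lam (mo r) * condS (mo r).1 (mo r).2 * d ≤ 62208 * (lam q * condS q.1 q.2) := by
      rw [c1, c2]
      calc lam (mo r) * g6 r * d = lam (mo r) * (d * g6 r) := by ring
        _ ≤ 62208 * g6 (gp q) := Nat.mul_le_mul l4 b2
        _ = 62208 * (1 * g6 (gp q)) := by ring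
        _ ≤ _ := Nat.mul_le_mul_left _ (Nat.mul_le_mul_right _ l1)
    have h' : ((lam (mo r) * condS (mo r).1 (mo r).2 : ℕ) : ℝ) * d ≤
        62208 * ((lam q * condS q.1 q.2 : ℕ) : ℝ) := by exact_mod_cast this
    linarith
  · rintro q ⟨⟨h1, h2, -⟩, hc⟩ q' ⟨⟨h1', h2', -⟩, hc'⟩ heq
    simp only at heq
    obtain ⟨g1, g2⟩ := gp_spec h1 h2
    obtain ⟨g1', g2'⟩ := gp_spec h1' h2'
    obtain ⟨r, hr, hr2, hG, -⟩ := key q h1 h2 hc
    obtain ⟨r', hr', hr2', hG', -⟩ := key q' h1' h2' hc'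
    rw [← hr, ← hr'] at heq
    have h3 := mo_inj hG hG' heq
    rw [← g2, ← g2', ← hr2, ← hr2', h3]

theorem cnt_lim {lam : ℤ × ℤ → ℕ} {A : ℝ} {ν : ℚ → ℝ} (hA : 0 < A)
    (hMd : Tendsto (fun N : ℝ => ((Md lam N).ncard : ℝ) / N ^ ((2 : ℝ) / 3)) atTop (𝓝 A))
    (hsh : ∀ x : ℝ, Tendsto (share lam fun q τ =>
        hs q τ ≤ Real.log ((lam q * condS q.1 q.2 : ℕ) : ℝ) / 6 + x) atTop (𝓝 (law ν x))) (x : ℝ) :
    Tendsto (fun N : ℝ => ((SS lam N x).ncard : ℝ) / N ^ ((2 : ℝ) / 3)) atTop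
      (𝓝 (A * law ν x)) := by
  refine (hMd.mul (hsh x)).congr' ?_
  filter_upwards [hMd.eventually (lt_mem_nhds hA), eventually_gt_atTop 0] with N h3 h4
  have h5 : (0 : ℝ) < N ^ ((2 : ℝ) / 3) := by positivity
  have h6 : ((Md lam N).ncard : ℝ) ≠ 0 := by
    intro h
    rw [h, zero_div] at h3
    exact lt_irrefl _ h3
  have h7 : share lam (fun q τ => hs q τ ≤ Real.log ((lam q * condS q.1 q.2 : ℕ) : ℝ) / 6 + x) N =
      ((SS lam N x).ncard : ℝ) / ((Md lam N).ncard : ℝ) := rfl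
  rw [h7]
  field_simp

theorem scale_lim {f : ℝ → ℝ} {L : ℝ}
    (h : Tendsto (fun X => f X / X ^ ((2 : ℝ) / 3)) atTop (𝓝 L)) {c : ℝ} (hc : 0 < c) :
    Tendsto (fun X => f (c * X) / X ^ ((2 : ℝ) / 3)) atTop (𝓝 (L * c ^ ((2 : ℝ) / 3))) := by
  have h1 : Tendsto (fun X : ℝ => c * X) atTop atTop := tendsto_id.const_mul_atTop hc
  refine ((h.comp h1).mul_const (c ^ ((2 : ℝ) / 3))).congr' ?_
  filter_upwards [eventually_gt_atTop 0] with X hX
  simp only [Function.comp]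
  rw [Real.mul_rpow hc.le hX.le]
  have h2 : (0 : ℝ) < X ^ ((2 : ℝ) / 3) := by positivity
  have h3 : (0 : ℝ) < c ^ ((2 : ℝ) / 3) := by positivity
  field_simp

theorem law_pos {lam : ℤ × ℤ → ℕ} (hl : Fac lam) {A : ℝ} {ν : ℚ → ℝ} (hA : 0 < A)
    (hMd : Tendsto (fun N : ℝ => ((Md lam N).ncard : ℝ) / N ^ ((2 : ℝ) / 3)) atTop (𝓝 A))
    (hsh : ∀ x : ℝ, Tendsto (share lam fun q τ =>
        hs q τ ≤ Real.log ((lam q * condS q.1 q.2 : ℕ) : ℝ) / 6 + x) atTop (𝓝 (law ν x)))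
    (htop : Tendsto (law ν) atTop (𝓝 1)) (y : ℝ) : 0 < law ν y := by
  have l1 : Tendsto (fun D : ℝ => law ν (y + Real.log (D / 62208) / 6)) atTop (𝓝 1) := by
    refine htop.comp ?_
    refine tendsto_atTop_add_const_left _ _ ?_
    refine Tendsto.atTop_div_const (by norm_num) ?_
    exact Real.tendsto_log_atTop.comp (tendsto_id.atTop_div_const (by norm_num))
  have l2 : Tendsto (fun D : ℝ => (62208 / D) ^ ((2 : ℝ) / 3)) atTop (𝓝 0) := by
    have h1 : Tendsto (fun D : ℝ => 62208 / D) atTop (𝓝 0) := tendsto_const_nhds.div_atTop tendsto_id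
    have h2 := h1.rpow_const (p := (2 : ℝ) / 3) (Or.inr (by norm_num))
    rwa [Real.zero_rpow (by norm_num)] at h2
  obtain ⟨D0, hD0⟩ := eventually_atTop.1 ((l1.eventually (lt_mem_nhds (show (1 / 2 : ℝ) < 1 by
    norm_num))).and (l2.eventually (gt_mem_nhds (show (0 : ℝ) < 1 / 2 by norm_num))))
  obtain ⟨d, hd1, hd⟩ := Nat.exists_infinite_primes (max ⌈D0⌉₊ 5)
  have hd5 : 5 ≤ d := (le_max_right _ _).trans hd1
  have hdD : D0 ≤ d := (Nat.le_ceil D0).trans (by exact_mod_cast (le_max_left _ _).trans hd1)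
  obtain ⟨k1, k2⟩ := hD0 d hdD
  have hdr : (0 : ℝ) < d := by exact_mod_cast hd.pos
  obtain ⟨c1, hc1⟩ : ∃ c1 : ℝ, c1 = 1 / (62208 * (d : ℝ) ^ 2) := ⟨_, rfl⟩
  have hc0 : 0 < c1 := by rw [hc1]; positivity
  obtain ⟨y', hy'⟩ : ∃ y' : ℝ, y' = y + Real.log ((d : ℝ) / 62208) / 6 := ⟨_, rfl⟩
  rw [← hy'] at k1
  have t1 := cnt_lim hA hMd hsh y
  have t2 := scale_lim (cnt_lim hA hMd hsh y') hc0
  have t3 := scale_lim hMd (c := 62208 * c1 / d) (by positivity)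
  have h1 : A * law ν y' * c1 ^ ((2 : ℝ) / 3) ≤
      A * law ν y + A * (62208 * c1 / d) ^ ((2 : ℝ) / 3) := by
    refine le_of_tendsto_of_tendsto t2 (t1.add t3) ?_
    filter_upwards [eventually_gt_atTop 0] with X hX
    have e1 : c1 * X = X / (62208 * (d : ℝ) ^ 2) := by rw [hc1]; ring
    have e2 : 62208 * (c1 * X) / d = 62208 * c1 / d * X := by ring
    have i1 := ineq1 hl hd hd5 (y := y) hX
    have i2 := ineq2 hl hd hd5 (X := c1 * X)
    rw [← hy', ← e1] at i1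
    rw [e2] at i2
    have i3 : (SS lam (c1 * X) y').ncard ≤
        {q | q ∈ SS lam (c1 * X) y' ∧ ¬ d ∣ ct q}.ncard +
          {q | q ∈ Md lam (c1 * X) ∧ d ∣ ct q}.ncard := by
      have hf := Md_finite hl (c1 * X)
      refine (Set.ncard_le_ncard ?_ ?_).trans (Set.ncard_union_le _ _)
      · intro q hq
        by_cases hc : d ∣ ct q
        · exact Or.inr ⟨hq.1, hc⟩
        · exact Or.inl ⟨hq, hc⟩
      · exact (hf.subset fun q hq => hq.1.1).union (hf.subset fun q hq => hq.1)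
    have i4 : ((SS lam (c1 * X) y').ncard : ℝ) ≤
        ((SS lam X y).ncard : ℝ) + ((Md lam (62208 * c1 / d * X)).ncard : ℝ) := by
      exact_mod_cast i3.trans (Nat.add_le_add i1 i2)
    rw [← add_div]
    exact div_le_div_of_nonneg_right i4 (by positivity)
  have e3 : (62208 * c1 / d) ^ ((2 : ℝ) / 3) = c1 ^ ((2 : ℝ) / 3) * (62208 / d) ^ ((2 : ℝ) / 3) := by
    rw [← Real.mul_rpow hc0.le (by positivity)]
    congr 1
    ring
  rw [e3] at h1
  have h2 : 0 < c1 ^ ((2 : ℝ) / 3) := by positivity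
  have h3 : 0 < A * c1 ^ ((2 : ℝ) / 3) * (law ν y' - (62208 / d) ^ ((2 : ℝ) / 3)) := by
    have : 0 < law ν y' - (62208 / (d : ℝ)) ^ ((2 : ℝ) / 3) := by linarith
    positivity
  have h4 : 0 < A * law ν y := by nlinarith
  exact (mul_pos_iff_of_pos_left hA).1 h4

end Pool.Agent.P8H82.SH
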