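import Mathlib
import Pool.Agent.P8H82.SH.Pos
import Pool.Agent.P8H82.PH.App
import Pool.Agent.P8H21.PH.Hyp
import Pool.Agent.P8H21.PH.Weak
import Pool.Agent.P8H44.PH.Cnt
import Pool.Agent.P8H44.PH.Polya
import Pool.Agent.P8H53.PH.Sum
import Pool.Agent.P8H55.PH.Conv
import Pool.Agent.P8H55.PH.Fin

set_option autoImplicit false

/-!
# The limit law of the stable Faltings height of products
-/

namespace Pool.Agent.P8H82.SH

open Filter Topology Pool.Agent.Y679.Jl Pool.Agent.H925R.Szpiro Pool.Agent.Y679.Par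
  Pool.Agent.Y679.Cur MeasureTheory
open Pool.Agent.TH876.FH (jInv arch)
open Pool.Agent.R465.FH (EE IsPer per_ex archLaw)
open Pool.Agent.P8H82.PH

theorem s_cnt : S_CNT := Pool.Agent.P8H44.PH.cnt

theorem s_conv : S_CONV := Pool.Agent.P8H55.PH.conv

theorem s_ph : S_PH := Pool.Agent.P8H55.PH.ph Pool.Agent.P8H44.PH.polya Pool.Agent.P8H21.PH.weak
  s_cnt s_conv (Pool.Agent.P8H53.PH.sum_thm Pool.Agent.P8H21.PH.hyp)

/-- the curves -/
abbrev Cu : Type := {q : ℤ × ℤ // IsMin q.1 q.2 ∧ FullS q.1 q.2}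

/-- the stable height -/
noncomputable def hF (q : ℤ × ℤ) : ℝ := hs q (Classical.epsilon (IsPer q))

theorem per_eps {q : ℤ × ℤ} (h1 : IsMin q.1 q.2) (h2 : FullS q.1 q.2) {τ : UpperHalfPlane}
    (hτ : IsPer q τ) : Classical.epsilon (IsPer q) = τ := by
  obtain ⟨σ, hσ, hu⟩ := per_ex h1 h2
  have h3 : IsPer q (Classical.epsilon (IsPer q)) := Classical.epsilon_spec ⟨σ, hσ⟩
  exact (hu _ h3).trans (hu _ hτ).symm

/-- the conductor -/
noncomputable def NN (lam : ℤ × ℤ → ℕ) (i : Cu) : ℝ := ((lam i.1 * condS i.1.1 i.1.2 : ℕ) : ℝ)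

/-- the centred height -/
noncomputable def ch (lam : ℤ × ℤ → ℕ) (i : Cu) : ℝ := hF i.1 - Real.log (NN lam i) / 6

theorem Md_eq (lam : ℤ × ℤ → ℕ) (X : ℝ) : Md lam X = Subtype.val '' {i : Cu | NN lam i ≤ X} := by
  ext q
  constructor
  · rintro ⟨h1, h2, h3⟩
    exact ⟨⟨q, h1, h2⟩, h3, rfl⟩
  · rintro ⟨i, hi, rfl⟩
    exact ⟨i.2.1, i.2.2, hi⟩

theorem SS_eq (lam : ℤ × ℤ → ℕ) (X x : ℝ) :
    SS lam X x = Subtype.val '' {i : Cu | NN lam i ≤ X ∧ ch lam i ≤ x} := by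
  ext q
  constructor
  · rintro ⟨⟨h1, h2, h3⟩, τ, hτ, ha⟩
    refine ⟨⟨q, h1, h2⟩, ⟨h3, ?_⟩, rfl⟩
    show hs q (Classical.epsilon (IsPer q)) -
      Real.log ((lam q * condS q.1 q.2 : ℕ) : ℝ) / 6 ≤ x
    rw [per_eps h1 h2 hτ]
    linarith
  · rintro ⟨i, ⟨hi, hx⟩, rfl⟩
    refine ⟨⟨i.2.1, i.2.2, hi⟩, ?_⟩
    obtain ⟨σ, hσ, -⟩ := per_ex i.2.1 i.2.2
    refine ⟨σ, hσ, ?_⟩
    have h3 : hs i.1 (Classical.epsilon (IsPer i.1)) -
      Real.log ((lam i.1 * condS i.1.1 i.1.2 : ℕ) : ℝ) / 6 ≤ x := hx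
    rw [per_eps i.2.1 i.2.2 hσ] at h3
    linarith

theorem NN_one {lam : ℤ × ℤ → ℕ} (hl : Fac lam) (i : Cu) : 1 ≤ NN lam i := by
  have h1 := (hl.1 i.1 i.2.1 i.2.2).1
  have h2 := condS_pos i.1.1 i.1.2
  have : 1 ≤ lam i.1 * condS i.1.1 i.1.2 := Nat.mul_pos h1 h2
  unfold NN
  exact_mod_cast this

theorem NN_fin {lam : ℤ × ℤ → ℕ} (hl : Fac lam) (X : ℝ) : {i : Cu | NN lam i ≤ X}.Finite := by
  have h1 := Md_finite hl X
  rw [Md_eq] at h1
  exact Set.Finite.of_finite_image h1 Subtype.val_injective.injOn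

/-- the family of the curves -/
theorem fam {lam : ℤ × ℤ → ℕ} (hl : Fac lam) {A : ℝ} {ν : ℚ → ℝ} (hA : 0 < A)
    (hMd : Tendsto (fun N : ℝ => ((Md lam N).ncard : ℝ) / N ^ ((2 : ℝ) / 3)) atTop (𝓝 A))
    (hsh : ∀ x : ℝ, Tendsto (share lam fun q τ =>
        hs q τ ≤ Real.log ((lam q * condS q.1 q.2 : ℕ) : ℝ) / 6 + x) atTop (𝓝 (law ν x)))
    (hcts : Continuous (law ν)) {μ : Measure ℝ} (hμ : IsProbabilityMeasure μ)
    (hμF : ∀ x, μ.real (Set.Iic x) = law ν x) : Fam Cu (NN lam) (ch lam) ((2 : ℝ) / 3) A μ := by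
  refine ⟨NN_one hl, NN_fin hl, by norm_num, hA, hμ, ?_, ?_, fun x => ?_⟩
  · simp only [hμF]
    exact hcts
  · refine hMd.congr fun X => ?_
    rw [Md_eq, Set.ncard_image_of_injective _ Subtype.val_injective]
  · rw [hμF]
    refine (cnt_lim hA hMd hsh x).congr fun X => ?_
    rw [SS_eq, Set.ncard_image_of_injective _ Subtype.val_injective]

/-- the products with `n` factors, conductor at most `X` and property `P` -/
def Vr (lam : ℤ × ℤ → ℕ) (n : ℕ) (X : ℝ) (P : (Fin n → ℤ × ℤ) → Prop) : Set (Fin n → ℤ × ℤ) :=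
  {q | (∀ k, IsMin (q k).1 (q k).2 ∧ FullS (q k).1 (q k).2) ∧
    ((∏ k, (lam (q k) * condS (q k).1 (q k).2) : ℕ) : ℝ) ≤ X ∧ P q}

/-- forgetting the proofs -/
def fg (n : ℕ) (v : Fin n → Cu) : Fin n → ℤ × ℤ := fun k => (v k).1

theorem fg_inj (n : ℕ) : Function.Injective (fg n) := by
  intro v v' h
  funext k
  exact Subtype.ext (congrFun h k)

theorem prod_NN (lam : ℤ × ℤ → ℕ) (n : ℕ) (v : Fin n → Cu) :
    ((∏ k, (lam (fg n v k) * condS (fg n v k).1 (fg n v k).2) : ℕ) : ℝ) = ∏ k, NN lam (v k) := by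
  rw [Nat.cast_prod]
  rfl

theorem Vr_eq (lam : ℤ × ℤ → ℕ) (n : ℕ) (X : ℝ) (P : (Fin n → ℤ × ℤ) → Prop) :
    Vr lam n X P = fg n '' {v | ∏ k, NN lam (v k) ≤ X ∧ P (fg n v)} := by
  ext q
  constructor
  · rintro ⟨h1, h2, h3⟩
    have e : fg n (fun k => ⟨q k, h1 k⟩) = q := rfl
    refine ⟨fun k => ⟨q k, h1 k⟩, ⟨?_, ?_⟩, e⟩
    · rw [← prod_NN]
      exact h2
    · exact h3
  · rintro ⟨v, ⟨h1, h2⟩, rfl⟩
    refine ⟨fun k => (v k).2, ?_, h2⟩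
    rw [prod_NN]
    exact h1

theorem Vr_tot (lam : ℤ × ℤ → ℕ) (n : ℕ) (X : ℝ) :
    (Vr lam n X fun _ => True).ncard = tot (NN lam) n X := by
  rw [Vr_eq, Set.ncard_image_of_injective _ (fg_inj n)]
  simp only [and_true]
  rfl

theorem sum_ch {lam : ℤ × ℤ → ℕ} (hl : Fac lam) (n : ℕ) (v : Fin n → Cu) :
    ∑ k, ch lam (v k) = ∑ k, hF (fg n v k) - Real.log (∏ k, NN lam (v k)) / 6 := by
  rw [Real.log_prod fun k _ => (lt_of_lt_of_le one_pos (NN_one hl (v k))).ne', Finset.sum_div,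
    ← Finset.sum_sub_distrib]
  rfl

theorem Vr_cntk {lam : ℤ × ℤ → ℕ} (hl : Fac lam) (n : ℕ) (X δ c : ℝ) :
    (Vr lam n X fun q => ∑ k, hF (q k) ≤ (1 / 6 + δ) *
      Real.log ((∏ k, (lam (q k) * condS (q k).1 (q k).2) : ℕ) : ℝ) + c).ncard =
      cntk (NN lam) (ch lam) n X δ c := by
  rw [Vr_eq, Set.ncard_image_of_injective _ (fg_inj n)]
  unfold cntk
  congr 1
  ext v
  simp only [Set.mem_setOf_eq]
  rw [sum_ch hl, prod_NN]
  constructor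
  · rintro ⟨h1, h2⟩
    exact ⟨h1, by linarith⟩
  · rintro ⟨h1, h2⟩
    exact ⟨h1, by linarith⟩

theorem Vr_cnt {lam : ℤ × ℤ → ℕ} (hl : Fac lam) (n : ℕ) (X x : ℝ) :
    (Vr lam n X fun q => ∑ k, hF (q k) ≤
      Real.log ((∏ k, (lam (q k) * condS (q k).1 (q k).2) : ℕ) : ℝ) / 6 + x).ncard =
      cnt (NN lam) (ch lam) n X x := by
  rw [Vr_eq, Set.ncard_image_of_injective _ (fg_inj n)]
  unfold cnt
  congr 1
  ext v
  simp only [Set.mem_setOf_eq]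
  rw [sum_ch hl, prod_NN]
  constructor
  · rintro ⟨h1, h2⟩
    exact ⟨h1, by linarith⟩
  · rintro ⟨h1, h2⟩
    exact ⟨h1, by linarith⟩

/-- **The limit law of the stable height in every dimension.** -/
theorem final {lam : ℤ × ℤ → ℕ} (hl : Fac lam) :
    ∃ (A : ℝ) (ν : ℚ → ℝ) (μ : Measure ℝ), 0 < A ∧ (∀ v, 0 ≤ ν v) ∧ (∀ v, ν v ≠ 0 → 0 < v) ∧
      HasSum ν 1 ∧
      (∀ (v : ℚ) (x : ℝ), Tendsto (share lam fun q τ => ratio lam q = v ∧ arch τ ≤ x) atTop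
        (𝓝 (ν v * archLaw x))) ∧
      IsProbabilityMeasure μ ∧ (∀ x, μ.real (Set.Iic x) = law ν x) ∧ Continuous (law ν) ∧
      ∀ n : ℕ,
        Tendsto (fun X : ℝ => ((Vr lam (n + 1) X fun _ => True).ncard : ℝ) /
          (X ^ ((2 : ℝ) / 3) * Real.log X ^ n)) atTop
          (𝓝 (A ^ (n + 1) * (2 / 3) ^ n / n.factorial)) ∧
        (∀ x : ℝ, Tendsto (fun X : ℝ => ((Vr lam (n + 1) X fun q => ∑ k, hF (q k) ≤
          Real.log ((∏ k, (lam (q k) * condS (q k).1 (q k).2) : ℕ) : ℝ) / 6 + x).ncard : ℝ) /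
            ((Vr lam (n + 1) X fun _ => True).ncard : ℝ)) atTop (𝓝 (Gn μ (n + 1) x)) ∧
          0 < Gn μ (n + 1) x ∧ Gn μ (n + 1) x < 1) ∧
        ∀ κ c : ℝ, Tendsto (fun X : ℝ => ((Vr lam (n + 1) X fun q => ∑ k, hF (q k) ≤
          κ * Real.log ((∏ k, (lam (q k) * condS (q k).1 (q k).2) : ℕ) : ℝ) + c).ncard : ℝ) /
            ((Vr lam (n + 1) X fun _ => True).ncard : ℝ)) atTop
          (𝓝 (if κ < 1 / 6 then 0 else if κ = 1 / 6 then Gn μ (n + 1) c else 1)) := by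
  obtain ⟨A, ν, hA, h0, hpos, h1, hMd, hjoint, hsh⟩ := main hl
  obtain ⟨hcts, hmono, hlt, hbot, htop⟩ := law_props h0 h1
  have hlp := law_pos hl hA hMd hsh htop
  obtain ⟨μ, hμ, hμF⟩ := exists_mu hcts hmono hbot htop
  have hfam := fam hl hA hMd hsh hcts hμ hμF
  refine ⟨A, ν, μ, hA, h0, hpos, h1, hjoint, hμ, hμF, hcts, fun n => ?_⟩
  have hsl : ∀ x : ℝ, Tendsto (fun X : ℝ => ((Vr lam (n + 1) X fun q => ∑ k, hF (q k) ≤
      Real.log ((∏ k, (lam (q k) * condS (q k).1 (q k).2) : ℕ) : ℝ) / 6 + x).ncard : ℝ) /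
        ((Vr lam (n + 1) X fun _ => True).ncard : ℝ)) atTop (𝓝 (Gn μ (n + 1) x)) := by
    intro x
    have h2 := share_lim s_ph hfam n x
    rw [Gn_eq s_conv hfam] at h2
    simp only [Vr_tot, Vr_cnt hl]
    exact h2
  refine ⟨?_, fun x => ⟨hsl x, ?_, ?_⟩, fun κ c => ?_⟩
  · have h2 := (s_ph Cu (NN lam) (ch lam) ((2 : ℝ) / 3) A μ hfam n).1
    simp only [Vr_tot]
    exact h2
  · exact Gn_pos (fun y => by rw [hμF]; exact hlp y) n x
  · exact Gn_lt (fun y => by rw [hμF]; exact hlt y) n x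
  · rcases lt_trichotomy κ (1 / 6) with h | h | h
    · rw [if_pos h]
      have h2 := slope_neg s_ph s_conv s_cnt hfam n (δ := κ - 1 / 6) (by linarith) c
      refine h2.congr fun X => ?_
      rw [← Vr_cntk hl, ← Vr_tot]
      simp only [add_sub_cancel]
    · rw [if_neg (by rw [h]; exact lt_irrefl _), if_pos h]
      refine (hsl c).congr fun X => ?_
      have e : ∀ L : ℝ, L / 6 = κ * L := fun L => by rw [h]; ring
      simp only [e]
    · rw [if_neg (not_lt.2 h.le), if_neg h.ne']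
      have h2 := slope_pos s_ph s_conv s_cnt hfam n (δ := κ - 1 / 6) (by linarith) c
      refine h2.congr fun X => ?_
      rw [← Vr_cntk hl, ← Vr_tot]
      simp only [add_sub_cancel]

/-- the joint law for single curves, as tuples of length one -/
theorem share_one (lam : ℤ × ℤ → ℕ) (v : ℚ) (x : ℝ) {L : ℝ}
    (hj : Tendsto (share lam fun q τ => ratio lam q = v ∧ arch τ ≤ x) atTop (𝓝 L)) :
    Tendsto (fun X : ℝ => ((Vr lam 1 X fun q => ratio lam (q 0) = v ∧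
      arch (Classical.epsilon (IsPer (q 0))) ≤ x).ncard : ℝ) /
        ((Vr lam 1 X fun _ => True).ncard : ℝ)) atTop (𝓝 L) := by
  obtain ⟨g, hg⟩ : ∃ g : ℤ × ℤ → (Fin 1 → ℤ × ℤ), g = fun q _ => q := ⟨_, rfl⟩
  have hinj : Function.Injective g := by
    intro a b h
    rw [hg] at h
    exact congrFun h 0
  have key : ∀ (X : ℝ) (P : (Fin 1 → ℤ × ℤ) → Prop),
      Vr lam 1 X P = g '' {q | q ∈ Md lam X ∧ P (g q)} := by
    intro X P
    ext q
    have e : g (q 0) = q := by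
      rw [hg]
      funext k
      rw [Fin.fin_one_eq_zero k]
    constructor
    · rintro ⟨h1, h2, h3⟩
      refine ⟨q 0, ⟨⟨(h1 0).1, (h1 0).2, ?_⟩, ?_⟩, e⟩
      · rw [Fin.prod_univ_one] at h2
        exact h2
      · rw [e]
        exact h3
    · rintro ⟨a, ⟨⟨h1, h2, h3⟩, h4⟩, rfl⟩
      refine ⟨fun k => ?_, ?_, h4⟩
      · rw [hg]
        exact ⟨h1, h2⟩
      · rw [Fin.prod_univ_one, hg]
        exact h3
  refine hj.congr fun X => ?_
  unfold share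
  rw [key, key, Set.ncard_image_of_injective _ hinj, Set.ncard_image_of_injective _ hinj]
  simp only [and_true, Set.setOf_mem_eq]
  congr 3
  ext q
  constructor
  · rintro ⟨h1, τ, hτ, h2, h3⟩
    refine ⟨h1, ?_⟩
    rw [hg]
    refine ⟨h2, ?_⟩
    simp only
    rw [per_eps h1.1 h1.2.1 hτ]
    exact h3
  · rintro ⟨h1, h2⟩
    rw [hg] at h2
    obtain ⟨h3, h4⟩ := h2
    simp only at h4
    obtain ⟨σ, hσ, -⟩ := per_ex h1.1 h1.2.1
    refine ⟨h1, σ, hσ, h3, ?_⟩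
    rw [per_eps h1.1 h1.2.1 hσ] at h4
    exact h4

end Pool.Agent.P8H82.SH
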